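import Pool.Agent.Lib.ThZ.Z13

section

/-! # From a real Hermitian Lie algebra to the data in a unitary frame -/

open Module Finset Matrix
open scoped InnerProductSpace

namespace Pool.Agent.Lib.ThZ

open Pool.Agent.Lib.MP_a150d7_gt

variable {E : Type*} [NormedAddCommGroup E] [InnerProductSpace ℝ E] [FiniteDimensional ℝ E]

/-- Existence of a unitary frame.  (Either by induction on `finrank`, splitting off
`span {v, J v}` and its orthogonal complement, or by putting the `ℂ`-inner product space structure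
`(a + b i) • x = a • x + b • J x`, `⟪x, y⟫ = ⟪x, y⟫_ℝ + i ⟪J x, y⟫_ℝ` on `E` and using
`stdOrthonormalBasis ℂ E`.) -/
theorem exists_frame (J : E →ₗ[ℝ] E) (hJJ : ∀ x, J (J x) = -x)
    (hiso : ∀ x y, ⟪J x, J y⟫_ℝ = ⟪x, y⟫_ℝ) : ∃ n : ℕ, Nonempty (Frame J n) := by
  classical
  have hJ1 : ∀ x y, ⟪J x, y⟫_ℝ = -⟪x, J y⟫_ℝ := by
    intro x y
    rw [← hiso (J x) y, hJJ, inner_neg_left]
  have hJ0 : ∀ x, ⟪x, J x⟫_ℝ = 0 := by
    intro x
    have h1 := hJ1 x x
    rw [real_inner_comm] at h1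
    linarith
  let P : ℕ → Prop := fun m => ∃ e : Fin m → E,
    (∀ i j, ⟪e i, e j⟫_ℝ = if i = j then 1 else 0) ∧ ∀ i j, ⟪e i, J (e j)⟫_ℝ = 0
  have hP0 : P 0 := ⟨fun i => i.elim0, fun i => i.elim0, fun i => i.elim0⟩
  have hPb : ∀ m, P m → m ≤ finrank ℝ E := by
    rintro m ⟨e, he, -⟩
    have h1 : Orthonormal ℝ e := orthonormal_iff_ite.mpr he
    have h2 := h1.linearIndependent.fintype_card_le_finrank
    rwa [Fintype.card_fin] at h2
  have hm : P (Nat.findGreatest P (finrank ℝ E)) :=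
    Nat.findGreatest_spec (P := P) (Nat.zero_le _) hP0
  have hm' : ¬ P (Nat.findGreatest P (finrank ℝ E) + 1) := by
    intro h1
    have h2 := Nat.le_findGreatest (P := P) (hPb _ h1) h1
    omega
  generalize Nat.findGreatest P (finrank ℝ E) = m at hm hm'
  obtain ⟨e, he, heJ⟩ := hm
  refine ⟨m, ⟨⟨e, he, heJ, fun x => ?_⟩⟩⟩
  by_contra hx
  set y := x - ∑ k, (⟪x, e k⟫_ℝ • e k + ⟪x, J (e k)⟫_ℝ • J (e k)) with hy
  have hy0 : y ≠ 0 := fun h1 => hx (sub_eq_zero.mp (hy ▸ h1))
  have heJ' : ∀ i j, ⟪J (e i), e j⟫_ℝ = 0 := fun i j => by rw [hJ1, heJ, neg_zero]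
  have h1 : ∀ j, ⟪y, e j⟫_ℝ = 0 := by
    intro j
    have h2 : ∀ k, ⟪⟪x, e k⟫_ℝ • e k + ⟪x, J (e k)⟫_ℝ • J (e k), e j⟫_ℝ =
        if k = j then ⟪x, e k⟫_ℝ else 0 := by
      intro k
      rw [inner_add_left, real_inner_smul_left, real_inner_smul_left, he, heJ', mul_zero, add_zero]
      split_ifs
      · rw [mul_one]
      · rw [mul_zero]
    rw [hy, inner_sub_left, sum_inner, Finset.sum_congr rfl fun k _ => h2 k,
      Finset.sum_ite_eq', if_pos (Finset.mem_univ j), sub_self]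
  have h2 : ∀ j, ⟪y, J (e j)⟫_ℝ = 0 := by
    intro j
    have h3 : ∀ k, ⟪⟪x, e k⟫_ℝ • e k + ⟪x, J (e k)⟫_ℝ • J (e k), J (e j)⟫_ℝ =
        if k = j then ⟪x, J (e k)⟫_ℝ else 0 := by
      intro k
      rw [inner_add_left, real_inner_smul_left, real_inner_smul_left, heJ, hiso, he, mul_zero,
        zero_add]
      split_ifs
      · rw [mul_one]
      · rw [mul_zero]
    rw [hy, inner_sub_left, sum_inner, Finset.sum_congr rfl fun k _ => h3 k,
      Finset.sum_ite_eq', if_pos (Finset.mem_univ j), sub_self]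
  have hn : ‖y‖ ≠ 0 := norm_ne_zero_iff.mpr hy0
  apply hm'
  refine ⟨Fin.cons (‖y‖⁻¹ • y) e, ?_, ?_⟩
  · intro i j
    refine Fin.cases ?_ (fun i => ?_) i
    · refine Fin.cases ?_ (fun j => ?_) j
      · rw [Fin.cons_zero, if_pos rfl, real_inner_smul_left, real_inner_smul_right,
          real_inner_self_eq_norm_sq]
        field_simp
      · rw [Fin.cons_zero, Fin.cons_succ, real_inner_smul_left, h1, mul_zero,
          if_neg (Fin.succ_ne_zero j).symm]
    · refine Fin.cases ?_ (fun j => ?_) j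
      · rw [Fin.cons_zero, Fin.cons_succ, real_inner_smul_right, real_inner_comm, h1, mul_zero,
          if_neg (Fin.succ_ne_zero i)]
      · rw [Fin.cons_succ, Fin.cons_succ, he]
        simp only [Fin.succ_inj]
  · intro i j
    refine Fin.cases ?_ (fun i => ?_) i
    · refine Fin.cases ?_ (fun j => ?_) j
      · rw [Fin.cons_zero]
        exact hJ0 _
      · rw [Fin.cons_zero, Fin.cons_succ, real_inner_smul_left, h2, mul_zero]
    · refine Fin.cases ?_ (fun j => ?_) j
      · rw [Fin.cons_zero, Fin.cons_succ, map_smul, real_inner_smul_right]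
        have h3 := hJ1 (e i) y
        rw [real_inner_comm, h2] at h3
        rw [← neg_eq_zero, ← mul_neg, ← h3, mul_zero]
      · rw [Fin.cons_succ, Fin.cons_succ]
        exact heJ i j

end Pool.Agent.Lib.ThZ
end

section

/-! # The type decomposition of the real Jacobi identity -/

open Module Finset Matrix
open scoped InnerProductSpace

namespace Pool.Agent.Lib.MP_a150d7_gt.HermLie

open Pool.Agent.Lib.MP_a150d7_gt Pool.Agent.Lib.ThZ

variable {E : Type*} [NormedAddCommGroup E] [InnerProductSpace ℝ E] [FiniteDimensional ℝ E]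
variable {br : E →ₗ[ℝ] E →ₗ[ℝ] E} {J : E →ₗ[ℝ] E} (h : HermLie br J)

/-- the complex bilinear part `B(x,y) = (br x y - br (Jx) (Jy))/2` of the bracket -/
noncomputable def _root_.Pool.Agent.Lib.ThZ.Bc (br : E →ₗ[ℝ] E →ₗ[ℝ] E) (J : E →ₗ[ℝ] E) :
    E →ₗ[ℝ] E →ₗ[ℝ] E :=
  (1 / 2 : ℝ) • (br - (br ∘ₗ J).compl₂ J)

theorem _root_.Pool.Agent.Lib.ThZ.Bc_apply (x y : E) :
    Bc br J x y = (1 / 2 : ℝ) • (br x y - br (J x) (J y)) := rfl

include h

theorem Bc_anti (x y : E) : Bc br J x y = -Bc br J y x := by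
  rw [Bc_apply, Bc_apply, h.skew y x, h.skew (J y) (J x), ← smul_neg]
  congr 1
  abel

private theorem Z14_J (x y : E) : br (J x) y + br x (J y) = J (br x y - br (J x) (J y)) := by
  have h1 := h.integ' x y
  have h2 : J (J (br (J x) y + br x (J y))) = J (br (J x) (J y) - br x y) := by rw [h1]
  rw [h.JJ] at h2
  rw [← neg_inj, h2, ← map_neg, neg_sub]

theorem Bc_J1 (x y : E) : Bc br J (J x) y = J (Bc br J x y) := by
  rw [Bc_apply, Bc_apply, h.JJ, map_neg, LinearMap.neg_apply, sub_neg_eq_add, map_smul, h.Z14_J]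

theorem Bc_J2 (x y : E) : Bc br J x (J y) = J (Bc br J x y) := by
  rw [Bc_apply, Bc_apply, h.JJ, map_neg, sub_neg_eq_add, map_smul, ← h.Z14_J, add_comm]

/-- `br x y = B(x,y) + A x y - A y x` (see `HermLie.link`). -/
theorem br_eq (x y : E) : br x y = Bc br J x y + Ac br J x y - Ac br J y x := by
  rw [add_sub_assoc, h.link, Bc_apply, ← smul_add]
  have e : br x y - br (J x) (J y) + (br x y + br (J x) (J y)) = (2 : ℝ) • br x y := by
    rw [two_smul]
    abel
  rw [e, smul_smul]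
  norm_num

end Pool.Agent.Lib.MP_a150d7_gt.HermLie
end

section

/-! # The type decomposition of the real Jacobi identity -/

open Module Finset Matrix
open scoped InnerProductSpace

namespace Pool.Agent.Lib.MP_a150d7_gt.HermLie

open Pool.Agent.Lib.MP_a150d7_gt Pool.Agent.Lib.ThZ

variable {E : Type*} [NormedAddCommGroup E] [InnerProductSpace ℝ E] [FiniteDimensional ℝ E]
variable {br : E →ₗ[ℝ] E →ₗ[ℝ] E} {J : E →ₗ[ℝ] E} (h : HermLie br J)

include h

/-- The part which is linear in `x`, `y` and conjugate linear in `z`: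
`A_z B(x,y) = B(A_z x, y) + B(x, A_z y) - A_{A_x z} y + A_{A_y z} x`. -/
theorem A_jac (x y z : E) : Ac br J z (Bc br J x y) =
    Bc br J (Ac br J z x) y + Bc br J x (Ac br J z y) - Ac br J (Ac br J x z) y
      + Ac br J (Ac br J y z) x := by
  have hbr := h.br_eq
  have hA1 : ∀ u v, Ac br J (J u) v = -J (Ac br J u v) := h.chern.A1
  have hA2 : ∀ u v, Ac br J u (J v) = J (Ac br J u v) := h.chern.A2
  have hB1 := h.Bc_J1
  have hB2 := h.Bc_J2
  have hJJ := h.JJ
  have h000 := h.jacobi x y z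
  have h100 := congrArg J (h.jacobi (J x) y z)
  have h010 := congrArg J (h.jacobi x (J y) z)
  have h001 := congrArg J (h.jacobi x y (J z))
  have h110 := h.jacobi (J x) (J y) z
  have h101 := h.jacobi (J x) y (J z)
  have h011 := h.jacobi x (J y) (J z)
  have h111 := congrArg J (h.jacobi (J x) (J y) (J z))
  simp only [hbr, hA1, hA2, hB1, hB2, hJJ, map_add, map_sub, map_neg, LinearMap.add_apply,
    LinearMap.sub_apply, LinearMap.neg_apply, neg_neg] at h000 h100 h010 h001 h110 h101 h011 h111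
  have hanti := h.Bc_anti y (Ac br J z x)
  linear_combination (norm := module) (1 / 8 : ℝ) • h000 - (1 / 8 : ℝ) • h100 -
    (1 / 8 : ℝ) • h010 + (1 / 8 : ℝ) • h001 - (1 / 8 : ℝ) • h110 + (1 / 8 : ℝ) • h101 +
    (1 / 8 : ℝ) • h011 - (1 / 8 : ℝ) • h111 - hanti

end Pool.Agent.Lib.MP_a150d7_gt.HermLie
end

section

/-! # The type decomposition of the real Jacobi identity -/

open Module Finset Matrix
open scoped InnerProductSpace

namespace Pool.Agent.Lib.MP_a150d7_gt.HermLie

open Pool.Agent.Lib.MP_a150d7_gt Pool.Agent.Lib.ThZ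

variable {E : Type*} [NormedAddCommGroup E] [InnerProductSpace ℝ E] [FiniteDimensional ℝ E]
variable {br : E →ₗ[ℝ] E →ₗ[ℝ] E} {J : E →ₗ[ℝ] E} (h : HermLie br J)

include h

/-- The part of the Jacobi identity `br x (br y z) = br (br x y) z + br y (br x z)` which is
conjugate linear in `x` and `y` and linear in `z`:  `A_x A_y - A_y A_x = A_{B(x,y)}`.
(Expand with `br_eq`; extract the type by averaging over `x → Jx`, `y → Jy`, `z → Jz` with the
`J`-linearity properties `h.chern.A1`, `h.chern.A2`, `Bc_J1`, `Bc_J2`.) -/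
theorem A_rep (x y z : E) : Ac br J x (Ac br J y z) - Ac br J y (Ac br J x z) =
    Ac br J (Bc br J x y) z := by
  have hbr := h.br_eq
  have hA1 : ∀ u v, Ac br J (J u) v = -J (Ac br J u v) := h.chern.A1
  have hA2 : ∀ u v, Ac br J u (J v) = J (Ac br J u v) := h.chern.A2
  have hB1 := h.Bc_J1
  have hB2 := h.Bc_J2
  have hJJ := h.JJ
  have h000 := h.jacobi x y z
  have h100 := congrArg J (h.jacobi (J x) y z)
  have h010 := congrArg J (h.jacobi x (J y) z)
  have h001 := congrArg J (h.jacobi x y (J z))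
  have h110 := h.jacobi (J x) (J y) z
  have h101 := h.jacobi (J x) y (J z)
  have h011 := h.jacobi x (J y) (J z)
  have h111 := congrArg J (h.jacobi (J x) (J y) (J z))
  simp only [hbr, hA1, hA2, hB1, hB2, hJJ, map_add, map_sub, map_neg, LinearMap.add_apply,
    LinearMap.sub_apply, LinearMap.neg_apply, neg_neg] at h000 h100 h010 h001 h110 h101 h011 h111
  linear_combination (norm := module) (1 / 8 : ℝ) • h000 + (1 / 8 : ℝ) • h100 +
    (1 / 8 : ℝ) • h010 - (1 / 8 : ℝ) • h001 - (1 / 8 : ℝ) • h110 + (1 / 8 : ℝ) • h101 +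
    (1 / 8 : ℝ) • h011 + (1 / 8 : ℝ) • h111

end Pool.Agent.Lib.MP_a150d7_gt.HermLie
end
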