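import Mathlib
import Pool.Agent.Lib.ThZ.Z0

section

/-! # The Gaussian functional -/

open MvPolynomial Matrix Finset

namespace Pool.Agent.Lib.ThZ

variable {n : ℕ}

/-- The Gaussian functional: `x^α x̄^β ↦ δ_{αβ} α!`. -/
noncomputable def Ev (n : ℕ) : P n →ₗ[ℂ] ℂ :=
  (basisMonomials (Fin n ⊕ Fin n) ℂ).constr ℂ (fun s =>
    if ∀ k : Fin n, s (Sum.inl k) = s (Sum.inr k) then
      ∏ k : Fin n, ((s (Sum.inl k)).factorial : ℂ) else 0)

/-- one factor of the value of the functional on a monomial -/
private noncomputable def Z1_g (a b : ℕ) : ℂ := if a = b then (a.factorial : ℂ) else 0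

private theorem Z1_g1 (a b : ℕ) : (b : ℂ) * Z1_g a (b - 1) = Z1_g (a + 1) b := by
  unfold Z1_g
  cases b with
  | zero => simp
  | succ b =>
    by_cases h : a = b
    · subst h
      simp [Nat.factorial_succ]
    · simp [h]

private theorem Z1_g2 (a b : ℕ) : (a : ℂ) * Z1_g (a - 1) b = Z1_g a (b + 1) := by
  unfold Z1_g
  cases a with
  | zero => simp
  | succ a =>
    by_cases h : a = b
    · subst h
      simp [Nat.factorial_succ]
    · simp [h]

private theorem Z1_w (s : (Fin n ⊕ Fin n) →₀ ℕ) :
    (if ∀ k : Fin n, s (Sum.inl k) = s (Sum.inr k) then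
      ∏ k : Fin n, ((s (Sum.inl k)).factorial : ℂ) else 0) =
      ∏ k : Fin n, Z1_g (s (Sum.inl k)) (s (Sum.inr k)) := by
  unfold Z1_g
  rw [Finset.prod_ite_zero]
  simp

theorem Ev_monomial (s : (Fin n ⊕ Fin n) →₀ ℕ) (a : ℂ) :
    Ev n (monomial s a) = a * (if ∀ k : Fin n, s (Sum.inl k) = s (Sum.inr k) then
      ∏ k : Fin n, ((s (Sum.inl k)).factorial : ℂ) else 0) := by
  have h1 : (monomial s a : P n) = a • basisMonomials (Fin n ⊕ Fin n) ℂ s := by
    rw [coe_basisMonomials, smul_monomial, smul_eq_mul, mul_one]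
  rw [h1, map_smul, Ev, Module.Basis.constr_basis, smul_eq_mul]

/-- integration by parts. Proof: by linearity (`MvPolynomial.induction_on'` or
`MvPolynomial.induction_on'''`, or `LinearMap` extensionality `MvPolynomial.lhom_ext'`/
`basisMonomials`), enough for `f = monomial s 1`, where it is a direct computation
(`pderiv_monomial`, `X = monomial (single _ 1) 1`). -/
theorem Ev_dY (k : Fin n) (f : P n) : Ev n (dY k f) = Ev n (xx k * f) := by
  induction f using MvPolynomial.induction_on' with
  | monomial s a =>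
    rw [dY, pderiv_monomial, xx, X, monomial_mul, one_mul, Ev_monomial, Ev_monomial, Z1_w, Z1_w,
      ← Finset.mul_prod_erase univ _ (Finset.mem_univ k),
      ← Finset.mul_prod_erase univ _ (Finset.mem_univ k)]
    have h1 : ∏ x ∈ univ.erase k, Z1_g
        ((s - Finsupp.single (Sum.inr k) 1 : (Fin n ⊕ Fin n) →₀ ℕ) (Sum.inl x))
        ((s - Finsupp.single (Sum.inr k) 1 : (Fin n ⊕ Fin n) →₀ ℕ) (Sum.inr x)) =
        ∏ x ∈ univ.erase k, Z1_g
        ((Finsupp.single (Sum.inl k) 1 + s : (Fin n ⊕ Fin n) →₀ ℕ) (Sum.inl x))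
        ((Finsupp.single (Sum.inl k) 1 + s : (Fin n ⊕ Fin n) →₀ ℕ) (Sum.inr x)) := by
      refine Finset.prod_congr rfl (fun x hx => ?_)
      have hxk : k ≠ x := (Finset.ne_of_mem_erase hx).symm
      simp [hxk]
    rw [h1]
    have h2 := Z1_g1 (s (Sum.inl k)) (s (Sum.inr k))
    simp only [Finsupp.coe_tsub, Pi.sub_apply, Finsupp.coe_add, Pi.add_apply,
      Finsupp.single_eq_same]
    rw [Finsupp.single_eq_of_ne (by simp), Finsupp.single_eq_of_ne (by simp), zero_add,
      Nat.sub_zero, add_comm 1 (s (Sum.inl k)), ← h2]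
    ring
  | add p q hp hq => rw [map_add, map_add, hp, hq, mul_add, map_add]

theorem Ev_dX (k : Fin n) (f : P n) : Ev n (dX k f) = Ev n (yy k * f) := by
  induction f using MvPolynomial.induction_on' with
  | monomial s a =>
    rw [dX, pderiv_monomial, yy, X, monomial_mul, one_mul, Ev_monomial, Ev_monomial, Z1_w, Z1_w,
      ← Finset.mul_prod_erase univ _ (Finset.mem_univ k),
      ← Finset.mul_prod_erase univ _ (Finset.mem_univ k)]
    have h1 : ∏ x ∈ univ.erase k, Z1_g
        ((s - Finsupp.single (Sum.inl k) 1 : (Fin n ⊕ Fin n) →₀ ℕ) (Sum.inl x))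
        ((s - Finsupp.single (Sum.inl k) 1 : (Fin n ⊕ Fin n) →₀ ℕ) (Sum.inr x)) =
        ∏ x ∈ univ.erase k, Z1_g
        ((Finsupp.single (Sum.inr k) 1 + s : (Fin n ⊕ Fin n) →₀ ℕ) (Sum.inl x))
        ((Finsupp.single (Sum.inr k) 1 + s : (Fin n ⊕ Fin n) →₀ ℕ) (Sum.inr x)) := by
      refine Finset.prod_congr rfl (fun x hx => ?_)
      have hxk : k ≠ x := (Finset.ne_of_mem_erase hx).symm
      simp [hxk]
    rw [h1]
    have h2 := Z1_g2 (s (Sum.inl k)) (s (Sum.inr k))
    simp only [Finsupp.coe_tsub, Pi.sub_apply, Finsupp.coe_add, Pi.add_apply,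
      Finsupp.single_eq_same]
    rw [Finsupp.single_eq_of_ne (by simp), Finsupp.single_eq_of_ne (by simp), zero_add,
      Nat.sub_zero, add_comm 1 (s (Sum.inr k)), ← h2]
    ring
  | add p q hp hq => rw [map_add, map_add, hp, hq, mul_add, map_add]

theorem Ev_one : Ev n 1 = 1 := by
  have h : (1 : P n) = monomial 0 1 := rfl
  rw [h, Ev_monomial]
  simp

theorem Ev_C_mul (a : ℂ) (f : P n) : Ev n (C a * f) = a * Ev n f := by
  rw [← smul_eq_C_mul, map_smul, smul_eq_mul]

end Pool.Agent.Lib.ThZ
end

section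

/-! # Derivative of a determinant, and the trace identity -/

open Matrix Finset

namespace Pool.Agent.Lib.ThZ

variable {R : Type*} [CommRing R] [Algebra ℂ R] {n : ℕ}

private theorem Z3_prod {ι : Type*} [DecidableEq ι] (δ : Derivation ℂ R R) (s : Finset ι)
    (f : ι → R) : δ (∏ i ∈ s, f i) = ∑ k ∈ s, δ (f k) * ∏ i ∈ s.erase k, f i := by
  induction s using Finset.induction_on with
  | empty => simp
  | insert a s ha ih =>
    rw [Finset.prod_insert ha, Derivation.leibniz, ih, Finset.sum_insert ha,
      Finset.erase_insert ha, smul_eq_mul, smul_eq_mul, Finset.mul_sum, add_comm, mul_comm]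
    congr 1
    refine Finset.sum_congr rfl (fun k hk => ?_)
    have hka : k ≠ a := fun h => ha (h ▸ hk)
    rw [Finset.erase_insert_of_ne hka.symm, Finset.prod_insert (by simp [ha])]
    ring

private theorem Z3_det (M : Matrix (Fin n) (Fin n) R) :
    M.det = ∑ σ : Equiv.Perm (Fin n), ((Equiv.Perm.sign σ : ℤ)) • ∏ i, M i (σ i) := by
  rw [← Matrix.det_transpose, Matrix.det_apply]
  rfl

/-- A derivation applied to a determinant: row by row. (Expand `Matrix.det_apply`, derivation of a
product over `Finset.univ`, and `Matrix.det_apply` backwards.) -/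
theorem deriv_det (δ : Derivation ℂ R R) (M : Matrix (Fin n) (Fin n) R) :
    δ M.det = ∑ k, (M.updateRow k (fun j => δ (M k j))).det := by
  rw [Z3_det, map_sum]
  have h1 : ∀ k, (M.updateRow k (fun j => δ (M k j))).det =
      ∑ σ : Equiv.Perm (Fin n), ((Equiv.Perm.sign σ : ℤ)) •
        (δ (M k (σ k)) * ∏ i ∈ univ.erase k, M i (σ i)) := by
    intro k
    rw [Z3_det]
    refine Finset.sum_congr rfl (fun σ _ => ?_)
    congr 1
    rw [← Finset.mul_prod_erase univ _ (Finset.mem_univ k), Matrix.updateRow_self]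
    congr 1
    refine Finset.prod_congr rfl (fun i hi => ?_)
    rw [Matrix.updateRow_ne (Finset.ne_of_mem_erase hi)]
  simp only [h1]
  rw [Finset.sum_comm]
  refine Finset.sum_congr rfl (fun σ _ => ?_)
  rw [map_zsmul, Z3_prod, Finset.smul_sum]

/-- `∑_k det (M; row k replaced by A · (row k)) = tr A · det M`.
(For instance: `M.updateRow k v` has determinant `∑_j v_j * adjugate M j k`
(`Matrix.cramer`, `Matrix.det_updateRow_eq...` or expand along the row), then
`∑_k ∑_j ∑_m A j m * M k m * adjugate M j k = tr (A * (adjugate M * M)ᵀ) ...`.) -/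
theorem trace_det (A M : Matrix (Fin n) (Fin n) R) :
    ∑ k, (M.updateRow k (A *ᵥ (M k))).det = A.trace * M.det := by
  have h0 : ∀ (k : Fin n) (v : Fin n → R), (M.updateRow k v).det = ∑ j, v j * M.adjugate j k := by
    intro k v
    rw [← Matrix.cramer_transpose_apply, Matrix.cramer_eq_adjugate_mulVec,
      ← Matrix.adjugate_transpose, Matrix.mulVec, dotProduct]
    exact Finset.sum_congr rfl (fun j _ => mul_comm _ _)
  simp only [h0, Matrix.mulVec, dotProduct, Finset.sum_mul]
  rw [Finset.sum_comm]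
  have h1 : ∀ j : Fin n, ∑ k, ∑ m, A j m * M k m * M.adjugate j k = A j j * M.det := by
    intro j
    rw [Finset.sum_comm]
    have h2 : ∀ m, ∑ k, A j m * M k m * M.adjugate j k = A j m * (M.adjugate * M) j m := by
      intro m
      rw [Matrix.mul_apply, Finset.mul_sum]
      exact Finset.sum_congr rfl (fun k _ => by ring)
    simp only [h2, Matrix.adjugate_mul, Matrix.smul_apply, Matrix.one_apply, smul_eq_mul]
    simp
  simp only [h1, Matrix.trace, Matrix.diag_apply]
  rw [Finset.sum_mul]

/-- expansion of a determinant with an updated row -/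
theorem det_updateRow_eq_sum (M : Matrix (Fin n) (Fin n) R) (k : Fin n) (v : Fin n → R) :
    (M.updateRow k v).det = ∑ j, v j * M.adjugate j k := by
  rw [← Matrix.cramer_transpose_apply, Matrix.cramer_eq_adjugate_mulVec,
    ← Matrix.adjugate_transpose, Matrix.mulVec, dotProduct]
  exact Finset.sum_congr rfl (fun j _ => mul_comm _ _)

end Pool.Agent.Lib.ThZ
end

section

/-! # The divergence identity for the cofactors of a cocycle -/

open Matrix Finset

namespace Pool.Agent.Lib.ThZ

variable {R : Type*} [CommRing R] [Algebra ℂ R] {n : ℕ}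

private theorem Z4_comm (A : Matrix (Fin n) (Fin n) R) {y k : Fin n} (hyk : y ≠ k)
    (u v : Fin n → R) : (A.updateRow k u).updateRow y v = (A.updateRow y v).updateRow k u := by
  ext i j
  by_cases hi : i = y
  · subst hi
    rw [Matrix.updateRow_self, Matrix.updateRow_ne hyk, Matrix.updateRow_self]
  · rw [Matrix.updateRow_ne hi]
    by_cases hk : i = k
    · subst hk
      rw [Matrix.updateRow_self, Matrix.updateRow_self]
    · rw [Matrix.updateRow_ne hk, Matrix.updateRow_ne hk, Matrix.updateRow_ne hi]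

/-- Step 1: `δ_y` of a cofactor.  With `C_{yz} = det (A; row y → e_z) = adjugate A z y`,
`δ_y C_{yz} - ∑_{z'} (D_y)_{z'z} C_{yz'} =
  ∑_{k ≠ y} det (A; row k → δ_y A_k + D_y A_k; row y → e_z) - tr (D_y) C_{yz}`.
Proof: `deriv_det` for `A.updateRow y (Pi.single z 1)` (the row `e_z` is killed by `δ`), and
`trace_det` for the same matrix, whose term `k = y` is `det (A; row y → D_y e_z) =
∑_{z'} (D_y)_{z'z} C_{yz'}`. -/
theorem deriv_cof (δ : Derivation ℂ R R) (D A : Matrix (Fin n) (Fin n) R) (y z : Fin n) :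
    δ (A.adjugate z y) - ∑ z', D z' z * A.adjugate z' y =
      ∑ k ∈ univ.erase y, ((A.updateRow k (fun j => δ (A k j) + (D *ᵥ (A k)) j)).updateRow y
        (Pi.single z 1)).det - D.trace * A.adjugate z y := by
  set e : Fin n → R := Pi.single z 1 with he
  set N := A.updateRow y e with hN
  have hadj : A.adjugate z y = N.det := by rw [Matrix.adjugate_apply]
  have hNk : ∀ k ∈ univ.erase y, N k = A k := by
    intro k hk
    funext j
    rw [hN, Matrix.updateRow_ne (Finset.ne_of_mem_erase hk)]
  have hNy : N y = e := by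
    funext j
    rw [hN, Matrix.updateRow_self]
  have h1 : δ N.det = ∑ k ∈ univ.erase y, (N.updateRow k (fun j => δ (A k j))).det := by
    rw [deriv_det, ← Finset.add_sum_erase univ _ (Finset.mem_univ y)]
    have h0 : (N.updateRow y (fun j => δ (N y j))).det = 0 := by
      refine Matrix.det_eq_zero_of_row_eq_zero y (fun j => ?_)
      rw [Matrix.updateRow_self, hNy, he, Pi.single_apply]
      split_ifs <;> simp
    rw [h0, zero_add]
    exact Finset.sum_congr rfl (fun k hk => by rw [hNk k hk])
  have h2 : D.trace * N.det = ∑ z', D z' z * A.adjugate z' y +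
      ∑ k ∈ univ.erase y, (N.updateRow k (D *ᵥ (A k))).det := by
    rw [← trace_det, ← Finset.add_sum_erase univ _ (Finset.mem_univ y)]
    congr 1
    · have h3 : N.updateRow y (D *ᵥ (N y)) = A.updateRow y (D *ᵥ (N y)) := by
        rw [hN, Matrix.updateRow_idem]
      rw [h3, det_updateRow_eq_sum]
      refine Finset.sum_congr rfl (fun z' _ => ?_)
      rw [hNy, he, Matrix.mulVec_single_one, Matrix.col_apply]
    · exact Finset.sum_congr rfl (fun k hk => by rw [hNk k hk])
  have h3 : ∑ k ∈ univ.erase y, ((A.updateRow k (fun j => δ (A k j) + (D *ᵥ (A k)) j)).updateRow y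
        e).det = ∑ k ∈ univ.erase y, (N.updateRow k (fun j => δ (A k j))).det +
      ∑ k ∈ univ.erase y, (N.updateRow k (D *ᵥ (A k))).det := by
    rw [← Finset.sum_add_distrib]
    refine Finset.sum_congr rfl (fun k hk => ?_)
    rw [Z4_comm A (Finset.ne_of_mem_erase hk).symm, ← Matrix.det_updateRow_add]
    rfl
  rw [h3, hadj, h1, h2]
  ring

/-- Step 2: antisymmetry.  For `k ≠ y` exchanging the two rows `k` and `y` changes the sign. -/
theorem swap_rows (A : Matrix (Fin n) (Fin n) R) {y k : Fin n} (hyk : y ≠ k) (u v : Fin n → R) :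
    ((A.updateRow k u).updateRow y v).det = -((A.updateRow y u).updateRow k v).det := by
  have h : (A.updateRow y u).updateRow k v =
      ((A.updateRow k u).updateRow y v).submatrix (Equiv.swap y k) id := by
    ext i j
    rw [Matrix.submatrix_apply, id]
    by_cases hi : i = k
    · subst hi
      rw [Equiv.swap_apply_right, Matrix.updateRow_self, Matrix.updateRow_self]
    · by_cases hy : i = y
      · subst hy
        rw [Equiv.swap_apply_left, Matrix.updateRow_ne hi, Matrix.updateRow_self,
          Matrix.updateRow_ne (Ne.symm hi), Matrix.updateRow_self]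
      · rw [Equiv.swap_apply_of_ne_of_ne hy hi, Matrix.updateRow_ne hi, Matrix.updateRow_ne hy,
          Matrix.updateRow_ne hy, Matrix.updateRow_ne hi]
  rw [h, Matrix.det_permute, Equiv.Perm.sign_swap hyk]
  simp

/-- Step 3: if the new row `k` is `∑_l b_l A_l`, only `l = k` and `l = y` survive. -/
theorem row_comb (A : Matrix (Fin n) (Fin n) R) {y k : Fin n} (hyk : y ≠ k) (b : Fin n → R)
    (z : Fin n) :
    ((A.updateRow k (fun j => ∑ l, b l * A l j)).updateRow y (Pi.single z 1)).det =
      b k * A.adjugate z y - b y * A.adjugate z k := by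
  have hlin : ∀ (N : Matrix (Fin n) (Fin n) R), (N.updateRow k (fun j => ∑ l, b l * A l j)).det =
      ∑ l, b l * (N.updateRow k (A l)).det := by
    intro N
    rw [det_updateRow_eq_sum]
    have h0 : ∀ l, (N.updateRow k (A l)).det = ∑ j, A l j * N.adjugate j k :=
      fun l => det_updateRow_eq_sum N k (A l)
    simp only [h0, Finset.sum_mul, Finset.mul_sum]
    rw [Finset.sum_comm]
    exact Finset.sum_congr rfl (fun l _ => Finset.sum_congr rfl (fun j _ => by ring))
  rw [Z4_comm A hyk, hlin, ← Finset.add_sum_erase univ _ (Finset.mem_univ k),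
    ← Finset.add_sum_erase (univ.erase k) _ (Finset.mem_erase.2 ⟨hyk, Finset.mem_univ y⟩)]
  have h1 : ((A.updateRow y (Pi.single z 1)).updateRow k (A k)).det = A.adjugate z y := by
    rw [Matrix.adjugate_apply, ← Z4_comm A hyk, Matrix.updateRow_eq_self]
  have h2 : ((A.updateRow y (Pi.single z 1)).updateRow k (A y)).det = -A.adjugate z k := by
    rw [← Z4_comm A hyk, swap_rows A hyk, Matrix.adjugate_apply, Matrix.updateRow_eq_self]
  have h3 : ∑ l ∈ (univ.erase k).erase y,
      b l * ((A.updateRow y (Pi.single z 1)).updateRow k (A l)).det = 0 := by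
    refine Finset.sum_eq_zero (fun l hl => ?_)
    have hly : l ≠ y := (Finset.mem_erase.1 hl).1
    have hlk : l ≠ k := (Finset.mem_erase.1 (Finset.mem_erase.1 hl).2).1
    rw [Matrix.det_zero_of_row_eq hlk, mul_zero]
    funext j
    rw [Matrix.updateRow_ne hlk, Matrix.updateRow_ne hly, Matrix.updateRow_self]
  rw [h1, h2, h3]
  ring

end Pool.Agent.Lib.ThZ
end

section

/-! # The divergence identity for the cofactors of a cocycle -/

open Matrix Finset

namespace Pool.Agent.Lib.ThZ

variable {R : Type*} [CommRing R] [Algebra ℂ R] {n : ℕ}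

/-- The divergence identity: if `A` is a cocycle and `tr D_y = tr ad_y` then
`∑_y (δ_y C_{yz} - ∑_{z'} (D_y)_{z'z} C_{yz'}) = 0`.
Proof: sum `deriv_cof` over `y`, symmetrise the double sum over `k ≠ y` with `swap_rows`
(so twice the double sum is the double sum with the row `k` replaced by
`∇_y A_k - ∇_k A_y = ∑_l B y k l A_l`), and use `row_comb`. -/
theorem div_adj (δ : Fin n → Derivation ℂ R R) (D : Fin n → Matrix (Fin n) (Fin n) R)
    (B : Fin n → Fin n → Fin n → R) (hB : ∀ x y k, B x y k = -B y x k)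
    (htr : ∀ y, (D y).trace = ∑ k, B y k k) (A : Matrix (Fin n) (Fin n) R)
    (hA : ∀ y y' z, δ y (A y' z) - δ y' (A y z) + ∑ m, D y z m * A y' m
      - ∑ m, D y' z m * A y m = ∑ k, B y y' k * A k z) (z : Fin n) :
    ∑ y, (δ y (A.adjugate z y) - ∑ z', D y z' z * A.adjugate z' y) = 0 := by
  set C : Fin n → Fin n → R := fun y k => A.adjugate z y with hC
  -- the terms
  set T : Fin n → Fin n → R := fun y k =>
    ((A.updateRow k (fun j => δ y (A k j) + (D y *ᵥ (A k)) j)).updateRow y
      (Pi.single z 1)).det with hT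
  have h1 : ∀ y, δ y (A.adjugate z y) - ∑ z', D y z' z * A.adjugate z' y =
      ∑ k ∈ univ.erase y, T y k - (D y).trace * A.adjugate z y :=
    fun y => deriv_cof (δ y) (D y) A y z
  simp only [h1, Finset.sum_sub_distrib]
  have hswap : ∀ f : Fin n → Fin n → R,
      ∑ y, ∑ k ∈ univ.erase y, f y k = ∑ y, ∑ k ∈ univ.erase y, f k y := by
    intro f
    refine Finset.sum_comm' (fun x y => ?_)
    simp only [Finset.mem_univ, true_and, Finset.mem_erase, and_true]
    exact ne_comm
  have hBB : ∀ y, B y y y = 0 := by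
    intro y
    have h2 : (2 : ℂ) • B y y y = 0 := by
      rw [two_smul]
      nth_rw 1 [hB y y y]
      simp
    have h3 := congrArg (fun x => (2 : ℂ)⁻¹ • x) h2
    simpa [smul_smul] using h3
  have hpair : ∀ y, ∀ k ∈ univ.erase y, T y k + T k y =
      B y k k * A.adjugate z y + B k y y * A.adjugate z k := by
    intro y k hk
    have hky : k ≠ y := Finset.ne_of_mem_erase hk
    have e1 : T k y = -((A.updateRow k (fun j => δ k (A y j) + (D k *ᵥ (A y)) j)).updateRow y
        (Pi.single z 1)).det := by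
      rw [hT]
      exact swap_rows A hky _ _
    have e2 : T y k + T k y = ((A.updateRow k (fun j => ∑ l, B y k l * A l j)).updateRow y
        (Pi.single z 1)).det := by
      have e3 : (fun j => ∑ l, B y k l * A l j) =
          (fun j => δ y (A k j) + (D y *ᵥ (A k)) j) +
            (-1 : R) • (fun j => δ k (A y j) + (D k *ᵥ (A y)) j) := by
        funext j
        rw [← hA y k j]
        simp only [Pi.add_apply, Pi.smul_apply, smul_eq_mul, Matrix.mulVec, dotProduct]
        ring
      have comm : ∀ u : Fin n → R, (A.updateRow k u).updateRow y (Pi.single z 1) =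
          (A.updateRow y (Pi.single z 1)).updateRow k u := by
        intro u
        ext i j
        by_cases hi : i = y
        · subst hi
          rw [Matrix.updateRow_self, Matrix.updateRow_ne hky.symm, Matrix.updateRow_self]
        · rw [Matrix.updateRow_ne hi]
          by_cases hk : i = k
          · subst hk
            rw [Matrix.updateRow_self, Matrix.updateRow_self]
          · rw [Matrix.updateRow_ne hk, Matrix.updateRow_ne hk, Matrix.updateRow_ne hi]
      rw [e3, e1, comm (_ + _), Matrix.det_updateRow_add, Matrix.det_updateRow_smul, ← comm, ← comm]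
      simp only [hT]
      ring
    rw [e2, row_comb A hky.symm, hB y k y]
    ring
  have hS : (2 : ℂ) • ∑ y, ∑ k ∈ univ.erase y, T y k =
      (2 : ℂ) • ∑ y, (D y).trace * A.adjugate z y := by
    have e1 : ∑ y, ∑ k ∈ univ.erase y, (T y k + T k y) =
        ∑ y, ∑ k ∈ univ.erase y, (B y k k * A.adjugate z y + B k y y * A.adjugate z k) :=
      Finset.sum_congr rfl (fun y _ => Finset.sum_congr rfl (fun k hk => hpair y k hk))
    have e2 : ∑ y, ∑ k ∈ univ.erase y, B y k k * A.adjugate z y =
        ∑ y, (D y).trace * A.adjugate z y := by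
      refine Finset.sum_congr rfl (fun y _ => ?_)
      rw [← Finset.sum_mul, htr y, ← Finset.add_sum_erase univ _ (Finset.mem_univ y), hBB y,
        zero_add]
    simp only [Finset.sum_add_distrib] at e1
    rw [← hswap T, ← hswap (fun y k => B y k k * A.adjugate z y), e2] at e1
    rw [two_smul, two_smul]
    exact e1
  have h4 := congrArg (fun x => (2 : ℂ)⁻¹ • x) hS
  simp only [smul_smul] at h4
  rw [inv_mul_cancel₀ (two_ne_zero' ℂ), one_smul, one_smul] at h4
  rw [h4, sub_self]

end Pool.Agent.Lib.ThZ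
end

section

/-! # Part (I): the Piola identity -/

open MvPolynomial Matrix Finset

namespace Pool.Agent.Lib.ThZ

variable {n : ℕ}

/-- the matrix `∂_{x̄_z} F_y` -/
noncomputable def jacF (F : Fin n → P n) : Matrix (Fin n) (Fin n) (P n) := fun y z => dY z (F y)

theorem dY_xx (z y : Fin n) : dY z (xx y : P n) = 0 := by
  unfold dY xx
  rw [pderiv_X_of_ne]
  simp

theorem dY_yy (z y : Fin n) : dY z (yy y : P n) = if z = y then 1 else 0 := by
  unfold dY yy
  by_cases h : z = y
  · subst h
    rw [pderiv_X_self, if_pos rfl]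
  · rw [pderiv_X_of_ne (by simpa using fun h' : y = z => h h'.symm), if_neg h]

theorem dY_rr (z : Fin n) : dY z (rr n) = xx z := by
  unfold rr
  rw [map_sum]
  have h : ∀ k : Fin n, dY z (xx k * yy k : P n) = if z = k then xx k else 0 := by
    intro k
    rw [Derivation.leibniz, dY_xx, dY_yy, smul_zero, add_zero, smul_eq_mul]
    by_cases h : z = k
    · rw [if_pos h, if_pos h, mul_one]
    · rw [if_neg h, if_neg h, mul_zero]
  simp only [h]
  rw [Finset.sum_ite_eq Finset.univ z, if_pos (Finset.mem_univ z)]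

theorem dY_comm (z z' : Fin n) (f : P n) : dY z (dY z' f) = dY z' (dY z f) := by
  have key : (⁅dY z, dY z'⁆ : Derivation ℂ (P n) (P n)) = 0 := by
    apply MvPolynomial.derivation_ext
    intro i
    rw [Derivation.commutator_apply]
    have h0 : ∀ w w' : Fin n, dY w (dY w' (X i) : P n) = 0 := by
      intro w w'
      rcases i with k | k
      · have h1 : dY w' (X (Sum.inl k) : P n) = 0 := dY_xx w' k
        rw [h1, map_zero]
      · have h1 : dY w' (X (Sum.inr k) : P n) = if w' = k then 1 else 0 := dY_yy w' k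
        rw [h1]
        by_cases h : w' = k
        · rw [if_pos h]; exact Derivation.map_one_eq_zero _
        · rw [if_neg h, map_zero]
    rw [h0, h0, sub_zero]
    rfl
  have h := congrArg (fun D : Derivation ℂ (P n) (P n) => D f) key
  exact sub_eq_zero.1 h

/-- the Piola identity: `∑_z ∂_{x̄_z} C_{yz} = 0` (`div_adj` for the transposed matrix, with
`D = 0`, `B = 0`; `Matrix.adjugate_transpose`). -/
theorem piola (F : Fin n → P n) (y : Fin n) : ∑ z, dY z ((jacF F).adjugate z y) = 0 := by
  have h := div_adj (R := P n) (fun k => dY k) (fun _ => 0) (fun _ _ _ => 0) (by simp) (by simp)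
    (jacF F)ᵀ (by
      intro a b c
      simp only [Matrix.zero_apply, zero_mul, Finset.sum_const_zero, sub_zero, add_zero]
      change dY a (dY b (F c)) - dY b (dY a (F c)) = _
      rw [dY_comm, sub_self]) y
  rw [← Matrix.adjugate_transpose] at h
  simpa only [Matrix.zero_apply, zero_mul, Finset.sum_const_zero, sub_zero,
    Matrix.transpose_apply] using h

/-- `E (∑_{y,z} ∂_{x̄_z} q_y · C_{yz}) = E (∑_{y,z} x_z q_y C_{yz})` (integration by parts and the
Piola identity) -/
theorem ibp (F q : Fin n → P n) :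
    Ev n (∑ y, ∑ z, dY z (q y) * (jacF F).adjugate z y) =
      Ev n (∑ y, ∑ z, q y * xx z * (jacF F).adjugate z y) := by
  rw [map_sum, map_sum]
  refine Finset.sum_congr rfl fun y _ => ?_
  have h1 : ∀ z, dY z (q y) * (jacF F).adjugate z y =
      dY z (q y * (jacF F).adjugate z y) - q y * dY z ((jacF F).adjugate z y) := by
    intro z
    rw [Derivation.leibniz, smul_eq_mul, smul_eq_mul]
    ring
  have h2 : ∑ z, dY z (q y) * (jacF F).adjugate z y =
      ∑ z, dY z (q y * (jacF F).adjugate z y) := by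
    rw [Finset.sum_congr rfl fun z _ => h1 z, Finset.sum_sub_distrib, ← Finset.mul_sum, piola,
      mul_zero, sub_zero]
  rw [h2, map_sum, map_sum]
  refine Finset.sum_congr rfl fun z _ => ?_
  rw [Ev_dY]
  refine congrArg _ ?_
  rw [← mul_assoc, mul_comm (xx z) (q y)]

end Pool.Agent.Lib.ThZ
end

section

/-! # The Gaussian functional of powers of r -/

open MvPolynomial Matrix Finset

namespace Pool.Agent.Lib.ThZ

variable {n : ℕ}

private theorem Z1c_dY_xx (z y : Fin n) : dY z (xx y : P n) = 0 := by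
  unfold dY xx
  rw [pderiv_X_of_ne]
  simp

private theorem Z1c_dY_yy (z y : Fin n) : dY z (yy y : P n) = if z = y then 1 else 0 := by
  unfold dY yy
  split_ifs with h
  · rw [h, pderiv_X_self]
  · rw [pderiv_X_of_ne]
    simpa using fun h' => h h'.symm

private theorem Z1c_dY_rr (z : Fin n) : dY z (rr n) = xx z := by
  unfold rr
  rw [map_sum]
  simp only [Derivation.leibniz, Z1c_dY_xx, Z1c_dY_yy, smul_eq_mul, mul_ite, mul_one, mul_zero,
    add_zero]
  rw [Finset.sum_ite_eq Finset.univ z (fun k => (xx k : P n)), if_pos (Finset.mem_univ z)]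

/-- `E r^(m+1) = (n+m) E r^m`.  Proof: `E r^(m+1) = ∑ k, E (x_k * (x̄_k r^m)) =
∑ k, E (∂_{x̄_k} (x̄_k r^m)) = ∑ k, E (r^m + m x̄_k x_k r^(m-1)) = n E r^m + m E r^m`. -/
theorem Ev_rr_pow_succ (m : ℕ) : Ev n (rr n ^ (m + 1)) = (n + m) * Ev n (rr n ^ m) := by
  have h1 : rr n ^ (m + 1) = ∑ k : Fin n, xx k * (yy k * rr n ^ m) := by
    rw [pow_succ']
    conv_lhs => rw [show rr n * rr n ^ m = (∑ k : Fin n, xx k * yy k) * rr n ^ m from rfl]
    rw [Finset.sum_mul]
    exact Finset.sum_congr rfl fun k _ => mul_assoc _ _ _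
  have h2 : ∀ k : Fin n, dY k (yy k * rr n ^ m) =
      rr n ^ m + (m : ℂ) • (rr n ^ (m - 1) * (xx k * yy k)) := by
    intro k
    rw [Derivation.leibniz, Derivation.leibniz_pow, Z1c_dY_yy, Z1c_dY_rr, if_pos rfl]
    simp only [smul_eq_mul, mul_one, Algebra.smul_def, map_natCast]
    rw [show (algebraMap ℕ (P n)) m = (m : P n) from rfl]
    ring
  have h3 : ∑ k : Fin n, (m : ℂ) • (rr n ^ (m - 1) * (xx k * yy k)) = (m : ℂ) • rr n ^ m := by
    rw [← Finset.smul_sum, ← Finset.mul_sum]
    have h4 : (∑ k : Fin n, xx k * yy k : P n) = rr n := rfl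
    rw [h4]
    rcases Nat.eq_zero_or_pos m with h0 | h0
    · rw [h0]; simp
    · rw [← pow_succ, Nat.sub_add_cancel h0]
  rw [h1, map_sum]
  simp only [← Ev_dY, h2]
  rw [← map_sum, Finset.sum_add_distrib, h3, map_add, map_smul, Finset.sum_const, map_nsmul,
    Finset.card_univ, Fintype.card_fin, nsmul_eq_mul, smul_eq_mul]
  ring

theorem Ev_rr_pow_ne (hn : 0 < n) (m : ℕ) : Ev n (rr n ^ m) ≠ 0 := by
  induction m with
  | zero => rw [pow_zero, Ev_one]; exact one_ne_zero
  | succ m ih =>
    rw [Ev_rr_pow_succ]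
    refine mul_ne_zero ?_ ih
    have : ((n + m : ℕ) : ℂ) ≠ 0 := Nat.cast_ne_zero.2 (by omega)
    rwa [Nat.cast_add] at this

end Pool.Agent.Lib.ThZ
end
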