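import Pool.Agent.Lib.ThZ.Mg.G001

section

/-! # Part (I): the model -/

open MvPolynomial Matrix Finset

namespace Pool.Agent.Lib.ThZ

variable {n : ℕ}

private theorem Z10b_rr_ne_zero (hn : 0 < n) : rr n ≠ 0 := by
  intro h
  have h1 : MvPolynomial.eval (fun _ => (1 : ℂ)) (rr n) = (n : ℂ) := by
    unfold rr xx yy
    simp
  rw [h, map_zero] at h1
  have h2 : (n : ℂ) ≠ 0 := by exact_mod_cast hn.ne'
  exact h2 h1.symm

private theorem Z10b_jac (c : ℂ) :
    jacF (fun y => C (c / 2) * rr n * yy y : Fin n → P n) =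
      (C (c / 2) : P n) • (Matrix.scalar (Fin n) (rr n) -
        vecMulVec (fun y => -(yy y : P n)) (fun z => (xx z : P n))) := by
  ext1 y z
  show dY z (C (c / 2) * rr n * yy y) = _
  rw [Derivation.leibniz, Derivation.leibniz, dY_rr, dY_yy]
  have hC : dY z (C (c / 2) : P n) = 0 := by
    unfold dY
    exact pderiv_C
  rw [hC, Matrix.smul_apply, Matrix.sub_apply, Matrix.scalar_apply, Matrix.diagonal_apply,
    vecMulVec_apply]
  simp only [smul_eq_mul]
  by_cases hyz : y = z
  · subst hyz
    rw [if_pos rfl, if_pos rfl]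
    ring
  · rw [if_neg hyz, if_neg (fun h => hyz h.symm)]
    ring

/-- the determinant of the model -/
theorem det_model (c : ℂ) (hn : 0 < n) :
    C ((2 : ℂ) ^ n) * (jacF (fun y => C (c / 2) * rr n * yy y : Fin n → P n)).det =
      C (2 * c ^ n) * rr n ^ n := by
  rw [Z10b_jac, Matrix.det_smul, ← Matrix.eval_charpoly, Matrix.charpoly_vecMulVec]
  have h1 : (fun y => -(yy y : P n)) ⬝ᵥ (fun z => (xx z : P n)) = -rr n := by
    unfold dotProduct rr
    rw [← Finset.sum_neg_distrib]
    refine Finset.sum_congr rfl (fun i _ => ?_)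
    ring
  rw [h1]
  simp only [Fintype.card_fin, Polynomial.eval_sub, Polynomial.eval_pow, Polynomial.eval_X,
    Polynomial.eval_smul, smul_eq_mul]
  have h2 : rr n * rr n ^ (n - 1) = rr n ^ n := by
    rw [← pow_succ', Nat.sub_add_cancel hn]
  have h3 : (C ((2 : ℂ) ^ n) : P n) * C (c / 2) ^ n = C (c ^ n) := by
    rw [← C_pow, ← C_mul, ← mul_pow]
    congr 2
    ring
  have h4 : (C (2 * c ^ n) : P n) = 2 * C (c ^ n) := by
    rw [C_mul]
    congr 1
  rw [h4]
  calc (C ((2 : ℂ) ^ n) : P n) * (C (c / 2) ^ n * (rr n ^ n - -rr n * rr n ^ (n - 1)))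
      = (C ((2 : ℂ) ^ n) * C (c / 2) ^ n) * (rr n ^ n + rr n * rr n ^ (n - 1)) := by ring
    _ = 2 * C (c ^ n) * rr n ^ n := by rw [h2, h3]; ring

/-- if `∑ x_y J_{yz} = c r x_z` with `c ≠ 0` and `∑ x_y q_y = 0`
then `∑_{y,z} q_y x_z C_{yz} = 0`. -/
theorem cof_orth (c : ℂ) (hc : c ≠ 0) (hn : 0 < n) (A : Matrix (Fin n) (Fin n) (P n))
    (hA : ∀ z, ∑ y, xx y * A y z = C c * rr n * xx z) (q : Fin n → P n)
    (hq : ∑ y, xx y * q y = 0) : ∑ y, ∑ z, q y * xx z * A.adjugate z y = 0 := by
  have hcr : (C c * rr n : P n) ≠ 0 := by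
    refine mul_ne_zero ?_ (Z10b_rr_ne_zero hn)
    rw [Ne, C_eq_zero]
    exact hc
  have h1 : (fun y => (xx y : P n)) ᵥ* A = (C c * rr n : P n) • (fun z => (xx z : P n)) := by
    funext z
    exact hA z
  have h2 : A.det • (fun y => (xx y : P n)) =
      (C c * rr n : P n) • ((fun z => (xx z : P n)) ᵥ* A.adjugate) := by
    rw [← Matrix.smul_vecMul, ← h1, Matrix.vecMul_vecMul, Matrix.mul_adjugate, Matrix.vecMul_smul,
      Matrix.vecMul_one]
  have h3 : (C c * rr n : P n) * (∑ y, ∑ z, q y * xx z * A.adjugate z y) = 0 := by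
    have h4 : ∀ y, (C c * rr n : P n) * (∑ z, q y * xx z * A.adjugate z y) =
        A.det * (xx y * q y) := by
      intro y
      have h5 := congrFun h2 y
      simp only [Pi.smul_apply, smul_eq_mul] at h5
      have h6 : ((fun z => (xx z : P n)) ᵥ* A.adjugate) y = ∑ z, xx z * A.adjugate z y := rfl
      rw [h6] at h5
      calc (C c * rr n : P n) * (∑ z, q y * xx z * A.adjugate z y)
          = q y * ((C c * rr n) * ∑ z, xx z * A.adjugate z y) := by
            rw [Finset.mul_sum, Finset.mul_sum, Finset.mul_sum]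
            refine Finset.sum_congr rfl (fun z _ => ?_)
            ring
        _ = A.det * (xx y * q y) := by rw [← h5]; ring
    rw [Finset.mul_sum, Finset.sum_congr rfl (fun y _ => h4 y), ← Finset.mul_sum, hq, mul_zero]
  exact (mul_eq_zero.mp h3).resolve_left hcr

end Pool.Agent.Lib.ThZ
end

section

/-! # Constancy along an affine deformation -/

open Matrix Finset

namespace Pool.Agent.Lib.ThZ

variable {R : Type*} [CommRing R] [Algebra ℂ R] {n : ℕ}

/-- a linear form of the values of a polynomial at scalars -/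
private theorem Z5_eval (E : R →ₗ[ℂ] ℂ) (q : Polynomial R) (N : ℕ) (hN : q.natDegree < N) (s : ℂ) :
    E (q.eval (algebraMap ℂ R s)) = ∑ i ∈ range N, E (q.coeff i) * s ^ i := by
  rw [Polynomial.eval_eq_sum_range' hN, map_sum]
  refine Finset.sum_congr rfl fun i _ => ?_
  rw [← map_pow, mul_comm, ← Algebra.smul_def, map_smul, smul_eq_mul, mul_comm]

/-- if the linear form vanishes at the values at all scalars, it vanishes at all coefficients -/
private theorem Z5_coeff (E : R →ₗ[ℂ] ℂ) (q : Polynomial R)
    (h : ∀ s : ℂ, E (q.eval (algebraMap ℂ R s)) = 0) (k : ℕ) : E (q.coeff k) = 0 := by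
  set N : ℕ := q.natDegree + 1 + k with hN
  set ψ : Polynomial ℂ := ∑ i ∈ range N, Polynomial.C (E (q.coeff i)) * Polynomial.X ^ i with hψ
  have h0 : ψ = 0 := by
    apply Polynomial.funext
    intro s
    rw [hψ, Polynomial.eval_finsetSum, Polynomial.eval_zero]
    simp only [Polynomial.eval_mul, Polynomial.eval_C, Polynomial.eval_pow, Polynomial.eval_X]
    rw [← Z5_eval E q N (by omega) s]
    exact h s
  have h1 : ψ.coeff k = E (q.coeff k) := by
    rw [hψ, Polynomial.finsetSum_coeff]
    simp only [Polynomial.coeff_C_mul, Polynomial.coeff_X_pow]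
    simp only [mul_ite, mul_one, mul_zero]
    rw [Finset.sum_ite_eq (range N) k (fun i => E (q.coeff i)), if_pos (Finset.mem_range.2 (by omega))]
  rw [← h1, h0, Polynomial.coeff_zero]

/-- If `E (∑_{y,z} N_{yz} C_{yz}(A + sN)) = 0` for all `s : ℂ`, then `E det (A + N) = E det A`.
Proof: let `p : Polynomial R := det (A.map C + X • N.map C)`.  For `s : ℂ`,
`p.eval (algebraMap s) = det (A + sN)` and, by the derivative of the determinant (`deriv_det`
for the derivation `Polynomial.derivative` — as a `Derivation ℂ R[X] R[X]`, see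
`Polynomial.derivative'`/`Derivation` API, or prove it again — and `det_updateRow_eq_sum`)
`p.derivative.eval (algebraMap s) = ∑_{y,z} N_{yz} adj(A + sN)_{zy}`.  Let
`φ : Polynomial ℂ` be `∑_k E(coeff p k) X^k`.  Then `φ.derivative` vanishes at all `s`, so
`φ.derivative = 0`, `φ` is constant, `φ.eval 0 = E det A`, `φ.eval 1 = E det (A + N)`. -/
theorem const_lemma (E : R →ₗ[ℂ] ℂ) (A N : Matrix (Fin n) (Fin n) R)
    (h : ∀ s : ℂ, E (∑ y, ∑ z, N y z * (A + s • N).adjugate z y) = 0) :
    E (A + N).det = E A.det := by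
  classical
  set M : Matrix (Fin n) (Fin n) (Polynomial R) :=
    fun i j => Polynomial.C (A i j) + Polynomial.X * Polynomial.C (N i j) with hM
  set p : Polynomial R := M.det with hp
  have hMs : ∀ s : ℂ, (Polynomial.evalRingHom (algebraMap ℂ R s)).mapMatrix M = A + s • N := by
    intro s
    ext i j
    rw [Matrix.add_apply, Matrix.smul_apply, Algebra.smul_def]
    change Polynomial.eval (algebraMap ℂ R s) (M i j) = _
    rw [hM, Polynomial.eval_add, Polynomial.eval_mul, Polynomial.eval_C, Polynomial.eval_X,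
      Polynomial.eval_C]
  have hps : ∀ s : ℂ, p.eval (algebraMap ℂ R s) = (A + s • N).det := by
    intro s
    rw [← hMs, ← RingHom.map_det]
    rfl
  have hder : Polynomial.derivative p = ∑ k, ∑ j, Polynomial.C (N k j) * M.adjugate j k := by
    have h1 := deriv_det (R := Polynomial R)
      (Polynomial.derivative'.restrictScalars ℂ) M
    have h2 : (Derivation.restrictScalars ℂ (Polynomial.derivative' (R := R))) M.det =
        Polynomial.derivative p := rfl
    rw [← h2, h1]
    refine Finset.sum_congr rfl fun k _ => ?_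
    rw [det_updateRow_eq_sum]
    refine Finset.sum_congr rfl fun j _ => ?_
    congr 1
    change Polynomial.derivative (M k j) = _
    simp [hM]
  have hders : ∀ s : ℂ, E ((Polynomial.derivative p).eval (algebraMap ℂ R s)) = 0 := by
    intro s
    rw [hder, Polynomial.eval_finsetSum, ← h s]
    congr 1
    refine Finset.sum_congr rfl fun k _ => ?_
    rw [Polynomial.eval_finsetSum]
    refine Finset.sum_congr rfl fun j _ => ?_
    rw [Polynomial.eval_mul, Polynomial.eval_C, ← hMs s, ← RingHom.map_adjugate]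
    rfl
  have hc : ∀ k, E (p.coeff (k + 1)) = 0 := by
    intro k
    have h1 := Z5_coeff E _ hders k
    rw [Polynomial.coeff_derivative] at h1
    have h2 : p.coeff (k + 1) * ((k : R) + 1) = ((k : ℂ) + 1) • p.coeff (k + 1) := by
      rw [Algebra.smul_def, mul_comm]
      simp
    rw [h2, map_smul, smul_eq_mul] at h1
    rcases mul_eq_zero.1 h1 with h3 | h3
    · exact absurd h3 (Nat.cast_add_one_ne_zero k)
    · exact h3
  have hall : ∀ s : ℂ, E (A + s • N).det = E (p.coeff 0) := by
    intro s
    rw [← hps, Z5_eval E p (p.natDegree + 1) (by omega) s, Finset.sum_range_succ']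
    simp [hc]
  have h1 := hall 1
  have h0 := hall 0
  rw [one_smul] at h1
  rw [zero_smul, add_zero] at h0
  rw [h1, h0]

end Pool.Agent.Lib.ThZ
end

section

/-! # Part (I): `E det J = c^n 2^(1-n) E r^n` -/

open MvPolynomial Matrix Finset

namespace Pool.Agent.Lib.ThZ

variable {n : ℕ}

theorem partI (c : ℂ) (hc : c ≠ 0) (hn : 0 < n) (F : Fin n → P n)
    (hF : ∑ y, xx y * F y = C (c / 2) * rr n ^ 2) :
    (2 : ℂ) ^ n * Ev n (jacF F).det = 2 * c ^ n * Ev n (rr n ^ n) := by
  let Fm : Fin n → P n := fun y => C (c / 2) * rr n * yy y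
  let q : Fin n → P n := fun y => F y - Fm y
  have hFm : ∑ y, xx y * Fm y = C (c / 2) * rr n ^ 2 := by
    have h1 : ∑ y, xx y * Fm y = C (c / 2) * rr n * ∑ y : Fin n, xx y * yy y := by
      rw [Finset.mul_sum]
      refine Finset.sum_congr rfl fun y _ => ?_
      change xx y * (C (c / 2) * rr n * yy y) = _
      ring
    rw [h1]
    change C (c / 2) * rr n * rr n = _
    ring
  have hq : ∑ y, xx y * q y = 0 := by
    have h1 : ∑ y, xx y * q y = ∑ y, xx y * F y - ∑ y, xx y * Fm y := by
      rw [← Finset.sum_sub_distrib]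
      refine Finset.sum_congr rfl fun y _ => ?_
      change xx y * (F y - Fm y) = _
      ring
    rw [h1, hF, hFm, sub_self]
  have hs : ∀ s : ℂ, jacF Fm + s • jacF q = jacF (fun y => Fm y + s • q y) := by
    intro s
    funext y z
    change dY z (Fm y) + s • dY z (q y) = dY z (Fm y + s • q y)
    rw [map_add, Derivation.map_smul]
  have hrow : ∀ (s : ℂ) (z : Fin n), ∑ y, xx y * (jacF (fun y => Fm y + s • q y)) y z =
      C c * rr n * xx z := by
    intro s z
    have h1 : ∑ y, xx y * (jacF (fun y => Fm y + s • q y)) y z =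
        dY z (∑ y, xx y * (Fm y + s • q y)) := by
      rw [map_sum]
      refine Finset.sum_congr rfl fun y _ => ?_
      rw [Derivation.leibniz, dY_xx, smul_zero, add_zero, smul_eq_mul]
      rfl
    have h2 : ∑ y, xx y * (Fm y + s • q y) = C (c / 2) * rr n ^ 2 := by
      have h3 : ∑ y, xx y * (Fm y + s • q y) = ∑ y, xx y * Fm y + s • ∑ y, xx y * q y := by
        rw [Finset.smul_sum, ← Finset.sum_add_distrib]
        refine Finset.sum_congr rfl fun y _ => ?_
        rw [mul_add, mul_smul_comm]
      rw [h3, hFm, hq, smul_zero, add_zero]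
    rw [h1, h2, Derivation.leibniz, pow_two, Derivation.leibniz, dY_rr]
    have h4 : dY z (C (c / 2) : P n) = 0 := by
      unfold dY
      exact pderiv_C
    rw [h4, smul_zero, add_zero, smul_eq_mul, smul_eq_mul, ← two_mul,
      show (C c : P n) = C (c / 2) * 2 from by
        rw [show (2 : P n) = C 2 from (map_ofNat C 2).symm, ← C_mul]
        congr 1
        ring]
    ring
  have hconst := const_lemma (Ev n) (jacF Fm) (jacF q) (by
    intro s
    rw [hs]
    have h5 := ibp (fun y => Fm y + s • q y) q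
    have h6 := cof_orth c hc hn _ (hrow s) q hq
    rw [h6, map_zero] at h5
    exact h5)
  have hsum : jacF Fm + jacF q = jacF F := by
    funext y z
    change dY z (Fm y) + dY z (F y - Fm y) = dY z (F y)
    rw [map_sub]
    ring
  rw [hsum] at hconst
  rw [hconst, ← Ev_C_mul, det_model c hn, Ev_C_mul]

end Pool.Agent.Lib.ThZ
end

section

/-! # The Gaussian functional and the derivations hat -/

open MvPolynomial Matrix Finset

namespace Pool.Agent.Lib.ThZ

variable {n : ℕ}

private theorem Z1b_hat (M : Matrix (Fin n) (Fin n) ℂ) (f : P n) :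
    hat M f = ∑ k, ∑ m, C (M k m) * (yy k * dY m f - xx m * dX k f) := by
  have h1 : hat M = ∑ k, ∑ m, (C (M k m) * yy k : P n) • dY m -
      ∑ k, ∑ m, (C (M k m) * xx m : P n) • dX k := by
    refine MvPolynomial.derivation_ext (fun i => ?_)
    have hs : ∀ (G : Fin n → Fin n → Derivation ℂ (P n) (P n)) (f : P n),
        (∑ k, ∑ m, G k m) f = ∑ k, ∑ m, (G k m) f := by
      intro G f
      have := congrFun (map_sum (Derivation.coeFnAddMonoidHom (R := ℂ) (A := P n) (M := P n))
        (fun k => ∑ m, G k m) univ) f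
      simp only [Derivation.coeFnAddMonoidHom_apply] at this
      rw [this, Finset.sum_apply]
      refine Finset.sum_congr rfl (fun k _ => ?_)
      have := congrFun (map_sum (Derivation.coeFnAddMonoidHom (R := ℂ) (A := P n) (M := P n))
        (fun m => G k m) univ) f
      simp only [Derivation.coeFnAddMonoidHom_apply] at this
      rw [this, Finset.sum_apply]
    rw [Derivation.sub_apply, hs, hs]
    simp only [Derivation.smul_apply, smul_eq_mul, dY, dX, pderiv_X]
    unfold hat
    rw [mkDerivation_X]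
    cases i with
    | inl i =>
      simp [Pi.single_apply]
    | inr i =>
      simp [Pi.single_apply]
  have hs : ∀ (G : Fin n → Fin n → Derivation ℂ (P n) (P n)) (f : P n),
      (∑ k, ∑ m, G k m) f = ∑ k, ∑ m, (G k m) f := by
    intro G f
    have := congrFun (map_sum (Derivation.coeFnAddMonoidHom (R := ℂ) (A := P n) (M := P n))
      (fun k => ∑ m, G k m) univ) f
    simp only [Derivation.coeFnAddMonoidHom_apply] at this
    rw [this, Finset.sum_apply]
    refine Finset.sum_congr rfl (fun k _ => ?_)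
    have := congrFun (map_sum (Derivation.coeFnAddMonoidHom (R := ℂ) (A := P n) (M := P n))
      (fun m => G k m) univ) f
    simp only [Derivation.coeFnAddMonoidHom_apply] at this
    rw [this, Finset.sum_apply]
  rw [h1, Derivation.sub_apply, hs, hs, ← Finset.sum_sub_distrib]
  refine Finset.sum_congr rfl (fun k _ => ?_)
  rw [← Finset.sum_sub_distrib]
  refine Finset.sum_congr rfl (fun m _ => ?_)
  rw [Derivation.smul_apply, Derivation.smul_apply, smul_eq_mul, smul_eq_mul]
  ring

/-- `E ∘ ŷ = 0`.  Proof: `hat M f = ∑ k, (-∑ m, C (M k m) * xx m) * dX k f +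
∑ k, (∑ m, C (M m k) * yy m) * dY k f` (both sides are derivations in `f` which agree on the
variables, `MvPolynomial.derivation_ext`), and `xx m * dX k f = dX k (xx m * f) - δ_{km} f`,
`yy m * dY k f = dY k (yy m * f) - δ_{km} f`; apply `Ev_dX`, `Ev_dY`; the terms cancel
after exchanging the names of the summation indices. -/
theorem Ev_hat (M : Matrix (Fin n) (Fin n) ℂ) (f : P n) : Ev n (hat M f) = 0 := by
  rw [Z1b_hat, map_sum]
  refine Finset.sum_eq_zero (fun k _ => ?_)
  rw [map_sum]
  refine Finset.sum_eq_zero (fun m _ => ?_)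
  have h1 := Ev_dX k (xx m * f)
  have h2 := Ev_dY m (yy k * f)
  rw [Derivation.leibniz, smul_eq_mul, smul_eq_mul, map_add] at h1 h2
  have h3 : dX k (xx m : P n) = dY m (yy k : P n) := by
    simp only [dX, dY, xx, yy, pderiv_X, Pi.single_apply]
    by_cases h : m = k
    · subst h; simp
    · have h' : ¬ k = m := fun e => h e.symm
      simp [h, h']
  rw [h3] at h1
  rw [Ev_C_mul, map_sub]
  have h4 : Ev n (yy k * (xx m * f)) = Ev n (xx m * (yy k * f)) := by
    congr 1
    ring
  rw [h4] at h1
  have h5 : Ev n (yy k * dY m f) = Ev n (xx m * dX k f) := by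
    linear_combination h2 - h1
  rw [h5, sub_self, mul_zero]

end Pool.Agent.Lib.ThZ
end
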