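import Pool.Agent.Lib.ThZ.Z6
import Pool.Agent.Lib.ThZ.Z0

section

/-! # Unimodularity: `det K = 0` -/

open MvPolynomial Matrix Finset

namespace Pool.Agent.Lib.ThZ

variable {n : ℕ}

/-- `det K = 0` in `P n`.  Proof: for all `t : Fin n → ℂ`, the complex matrix
`fun y z => ∑ k, star (d.D z y k) * t k` is the entrywise conjugate of `d.L (star t)`, so it has
determinant zero; hence the polynomial `det (fun y z => ∑ k, C (star (d.D z y k)) * X k)` in
`MvPolynomial (Fin n) ℂ` is zero (`MvPolynomial.funext`), and `d.K` is its image under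
`aeval (fun k => form (d.D k))`. -/
theorem Data.det_K (d : Data n) (hn : 0 < n) (hu : d.Unimodular) : d.K.det = 0 := by
  set Q : Matrix (Fin n) (Fin n) (MvPolynomial (Fin n) ℂ) :=
    fun y z => ∑ k, C (star (d.D z y k)) * X k with hQ
  have hK : d.K = (aeval (fun k => (form (d.D k) : P n)) :
      MvPolynomial (Fin n) ℂ →ₐ[ℂ] P n).toRingHom.mapMatrix Q := by
    ext1 y z
    change ∑ k, C (star (d.D z y k)) * form (d.D k) =
      aeval (fun k => (form (d.D k) : P n)) (∑ k, C (star (d.D z y k)) * X k)
    rw [map_sum]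
    refine Finset.sum_congr rfl fun k _ => ?_
    rw [map_mul, aeval_X, aeval_C]
    rfl
  have hQ0 : Q.det = 0 := by
    apply MvPolynomial.funext
    intro t
    have h1 : (eval t).mapMatrix Q = (starRingEnd ℂ).mapMatrix (d.L (star t)) := by
      ext1 y z
      change eval t (∑ k, C (star (d.D z y k)) * X k) =
        starRingEnd ℂ (∑ k, d.D z y k * star (t k))
      rw [map_sum, map_sum]
      refine Finset.sum_congr rfl fun k _ => ?_
      rw [map_mul, map_mul, eval_C, eval_X]
      congr 1
      exact (star_star (t k)).symm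
    rw [RingHom.map_det, h1, ← RingHom.map_det, d.det_L hn hu, map_zero, map_zero]
  rw [hK, ← RingHom.map_det, hQ0, map_zero]

end Pool.Agent.Lib.ThZ
end

section

/-! # Polynomials in `x` and its conjugate -/

open MvPolynomial Matrix Finset

namespace Pool.Agent.Lib.ThZ

variable {n : ℕ}

/-- A polynomial in `x, x̄` which vanishes at all points `(x, conj x)` is zero.
Proof: substitute `x_k = u_k + i v_k`, `x̄_k = u_k - i v_k` (a linear automorphism `φ` of the
polynomial ring, with inverse `u = (x + x̄)/2`, `v = (x - x̄)/(2i)`); the resulting polynomial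
vanishes at all real points, so it is zero by `MvPolynomial.funext_set` with
`s i = Set.range ((↑) : ℝ → ℂ)`. -/
theorem eq_zero_of_conj (p : P n)
    (h : ∀ x : Fin n → ℂ, eval (Sum.elim x (fun k => star (x k))) p = 0) : p = 0 := by
  classical
  let φ : P n →ₐ[ℂ] P n := aeval (Sum.elim
    (fun k => (X (Sum.inl k) + C Complex.I * X (Sum.inr k) : P n))
    (fun k => (X (Sum.inl k) - C Complex.I * X (Sum.inr k) : P n)))
  let ψ : P n →ₐ[ℂ] P n := aeval (Sum.elim
    (fun k => (C (1 / 2) * (X (Sum.inl k) + X (Sum.inr k)) : P n))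
    (fun k => (C (-Complex.I / 2) * (X (Sum.inl k) - X (Sum.inr k)) : P n)))
  have hI : (C Complex.I : P n) * C Complex.I = -1 := by
    rw [← map_mul, Complex.I_mul_I, map_neg, map_one]
  have hh : (C (1 / 2) : P n) + C (1 / 2) = 1 := by
    rw [← map_add]; norm_num
  have hII : (C Complex.I : P n) * C (-Complex.I / 2) = C (1 / 2) := by
    rw [← map_mul]
    congr 1
    rw [mul_div_assoc', mul_neg, Complex.I_mul_I, neg_neg]
  have hψφ : ∀ q : P n, ψ (φ q) = q := by
    intro q
    have h1 : ψ.comp φ = AlgHom.id ℂ (P n) := by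
      apply MvPolynomial.algHom_ext
      rintro (k | k)
      · change ψ (φ (X (Sum.inl k))) = X (Sum.inl k)
        have e1 : φ (X (Sum.inl k)) = (X (Sum.inl k) + C Complex.I * X (Sum.inr k) : P n) :=
          aeval_X _ _
        have e2 : ψ (X (Sum.inl k)) = (C (1 / 2) * (X (Sum.inl k) + X (Sum.inr k)) : P n) :=
          aeval_X _ _
        have e3 : ψ (X (Sum.inr k)) = (C (-Complex.I / 2) * (X (Sum.inl k) - X (Sum.inr k)) : P n) :=
          aeval_X _ _
        have e4 : ψ (C Complex.I) = C Complex.I := ψ.commutes Complex.I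
        rw [e1, map_add, map_mul, e2, e3, e4, ← mul_assoc, hII]
        linear_combination (X (Sum.inl k) : P n) * hh
      · change ψ (φ (X (Sum.inr k))) = X (Sum.inr k)
        have e1 : φ (X (Sum.inr k)) = (X (Sum.inl k) - C Complex.I * X (Sum.inr k) : P n) :=
          aeval_X _ _
        have e2 : ψ (X (Sum.inl k)) = (C (1 / 2) * (X (Sum.inl k) + X (Sum.inr k)) : P n) :=
          aeval_X _ _
        have e3 : ψ (X (Sum.inr k)) = (C (-Complex.I / 2) * (X (Sum.inl k) - X (Sum.inr k)) : P n) :=
          aeval_X _ _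
        have e4 : ψ (C Complex.I) = C Complex.I := ψ.commutes Complex.I
        rw [e1, map_sub, map_mul, e2, e3, e4, ← mul_assoc, hII]
        linear_combination (X (Sum.inr k) : P n) * hh
    exact congrArg (fun F : P n →ₐ[ℂ] P n => F q) h1
  have hφ : φ p = 0 := by
    refine MvPolynomial.funext_set (fun _ => Set.range ((↑) : ℝ → ℂ))
      (fun _ => Set.infinite_range_of_injective Complex.ofReal_injective) ?_
    intro x hx
    have hreal : ∀ i, star (x i) = x i := by
      intro i
      obtain ⟨t, ht⟩ := hx i (Set.mem_univ i)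
      rw [← ht]
      exact Complex.conj_ofReal t
    rw [map_zero]
    have h1 : eval x (φ p) = eval (Sum.elim (fun k => x (Sum.inl k) + Complex.I * x (Sum.inr k))
        (fun k => star (x (Sum.inl k) + Complex.I * x (Sum.inr k)))) p := by
      have h2 : (MvPolynomial.aeval x : P n →ₐ[ℂ] ℂ).comp φ = MvPolynomial.aeval
          (Sum.elim (fun k => x (Sum.inl k) + Complex.I * x (Sum.inr k))
            (fun k => star (x (Sum.inl k) + Complex.I * x (Sum.inr k)))) := by
        apply MvPolynomial.algHom_ext
        rintro (k | k)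
        · change (MvPolynomial.aeval x : P n →ₐ[ℂ] ℂ) (φ (X (Sum.inl k))) = _
          have e1 : φ (X (Sum.inl k)) = (X (Sum.inl k) + C Complex.I * X (Sum.inr k) : P n) :=
            aeval_X _ _
          rw [e1, map_add, map_mul, aeval_X, aeval_X, aeval_X, aeval_C]
          rfl
        · change (MvPolynomial.aeval x : P n →ₐ[ℂ] ℂ) (φ (X (Sum.inr k))) = _
          have e1 : φ (X (Sum.inr k)) = (X (Sum.inl k) - C Complex.I * X (Sum.inr k) : P n) :=
            aeval_X _ _
          rw [e1, map_sub, map_mul, aeval_X, aeval_X, aeval_X, aeval_C]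
          change x (Sum.inl k) - Complex.I * x (Sum.inr k)
            = star (x (Sum.inl k) + Complex.I * x (Sum.inr k))
          rw [star_add, star_mul', hreal, hreal]
          have : star Complex.I = -Complex.I := Complex.conj_I
          rw [this]; ring
      have h3 := congrArg (fun F : P n →ₐ[ℂ] ℂ => F p) h2
      simpa [MvPolynomial.coe_aeval_eq_eval] using h3
    rw [h1]
    exact h _
  rw [← hψφ p, hφ, map_zero]

end Pool.Agent.Lib.ThZ
end

section

/-! # The hypothesis of constant holomorphic sectional curvature -/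

open MvPolynomial Matrix Finset

namespace Pool.Agent.Lib.ThZ

variable {n : ℕ}

theorem Data.hsc_poly (d : Data n) (c : ℂ)
    (h : ∀ x : Fin n → ℂ, ∑ a, ∑ b, ∑ i, ∑ j,
      x a * star (x b) * star (x i) * x j * d.R a b i j = c * (∑ k, x k * star (x k)) ^ 2) :
    ∑ y, xx y * d.F y = C (c / 2) * rr n ^ 2 := by
  rw [← sub_eq_zero]
  apply eq_zero_of_conj
  intro x
  have hx : ∀ k, eval (Sum.elim x (fun k => star (x k))) (xx k : P n) = x k := fun k => by
    unfold xx
    rw [eval_X]; rfl
  have hy : ∀ k, eval (Sum.elim x (fun k => star (x k))) (yy k : P n) = star (x k) := fun k => by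
    unfold yy
    rw [eval_X]; rfl
  have hF : ∀ y, eval (Sum.elim x (fun k => star (x k))) (d.F y) =
      1 / 2 * ∑ b, star (x b) * ∑ i, ∑ j, d.R y b i j * (star (x i) * x j) := by
    intro y
    unfold Data.F form
    rw [map_mul, eval_C, map_sum]
    congr 1
    refine Finset.sum_congr rfl fun b _ => ?_
    rw [map_mul, hy, map_sum]
    congr 1
    refine Finset.sum_congr rfl fun i _ => ?_
    rw [map_sum]
    refine Finset.sum_congr rfl fun j _ => ?_
    rw [map_mul, map_mul, eval_C, hx, hy]
  have hr : eval (Sum.elim x (fun k => star (x k))) (rr n) = ∑ k, x k * star (x k) := by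
    unfold rr
    rw [map_sum]
    refine Finset.sum_congr rfl fun k _ => ?_
    rw [map_mul, hx, hy]
  rw [map_sub, map_sum, map_mul, map_pow, hr, eval_C]
  simp only [map_mul, hx, hF]
  have h1 : ∑ y, x y * (1 / 2 * ∑ b, star (x b) * ∑ i, ∑ j, d.R y b i j * (star (x i) * x j)) =
      1 / 2 * ∑ a, ∑ b, ∑ i, ∑ j, x a * star (x b) * star (x i) * x j * d.R a b i j := by
    rw [Finset.mul_sum]
    refine Finset.sum_congr rfl fun a _ => ?_
    rw [Finset.mul_sum, Finset.mul_sum, Finset.mul_sum]
    refine Finset.sum_congr rfl fun b _ => ?_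
    rw [Finset.mul_sum, Finset.mul_sum, Finset.mul_sum, Finset.mul_sum]
    refine Finset.sum_congr rfl fun i _ => ?_
    rw [Finset.mul_sum, Finset.mul_sum, Finset.mul_sum, Finset.mul_sum]
    refine Finset.sum_congr rfl fun j _ => ?_
    ring
  rw [h1, h x]
  ring

end Pool.Agent.Lib.ThZ
end
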