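import Pool.Agent.Lib.ThZ.Z7
import Pool.Agent.Lib.ThZ.Z2

section

/-! # The identity `J = -K - ∂g`: matrices -/

open MvPolynomial Matrix Finset

namespace Pool.Agent.Lib.ThZ

variable {n : ℕ}

private theorem Z7b_R (d : Data n) (a b i j : Fin n) :
    d.R a b i j = ∑ l, star (d.D b l i) * d.D a l j - ∑ l, d.D a i l * star (d.D b j l)
      - ∑ k, star (d.D b a k) * d.D k i j - ∑ k, d.D a b k * star (d.D k j i) := by
  unfold Data.R
  rw [Matrix.sub_apply, Matrix.sub_apply, Matrix.sub_apply, Matrix.mul_apply, Matrix.mul_apply,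
    Matrix.sum_apply, Matrix.sum_apply]
  simp only [conjTranspose_apply, Matrix.smul_apply, smul_eq_mul]

/-- `R(e_y, ē_z)` is the adjoint of `R(e_z, ē_y)`. -/
theorem Data.R_adj (d : Data n) (y z : Fin n) : (d.R y z)ᴴ = d.R z y := by
  ext i j
  rw [conjTranspose_apply, Z7b_R, Z7b_R]
  simp only [star_sub, star_sum, star_mul', star_star]
  have h1 : ∑ l, d.D z l j * star (d.D y l i) = ∑ l, star (d.D y l i) * d.D z l j :=
    Finset.sum_congr rfl fun l _ => mul_comm _ _
  have h2 : ∑ l, star (d.D y j l) * d.D z i l = ∑ l, d.D z i l * star (d.D y j l) :=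
    Finset.sum_congr rfl fun l _ => mul_comm _ _
  rw [h1, h2]
  ring

/-- The first Bianchi identity: `R(e_i, ē_y) e_z - R(e_z, ē_y) e_i = (D_y^* · T)(e_i, e_z)` with
`T(z,i)_j = D z j i - D i j z - B z i j`; it is equivalent to `d.jac` (the terms with `D D^*` on
both sides cancel identically). -/
theorem Data.bianchi (d : Data n) (i y z j : Fin n) :
    d.R i y j z - d.R z y j i =
      ∑ l, star (d.D y l j) * (d.D i l z - d.D z l i - d.B i z l)
      - ∑ l, star (d.D y i l) * (d.D l j z - d.D z j l - d.B l z j)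
      - ∑ l, star (d.D y z l) * (d.D i j l - d.D l j i - d.B i l j) := by
  have hj := d.jac i z y j
  rw [Z7b_R, Z7b_R]
  simp only [mul_sub, Finset.sum_sub_distrib]
  have h1 : ∑ l, d.D i j l * star (d.D y z l) = ∑ l, star (d.D y z l) * d.D i j l :=
    Finset.sum_congr rfl fun l _ => mul_comm _ _
  have h2 : ∑ l, d.D z j l * star (d.D y i l) = ∑ l, star (d.D y i l) * d.D z j l :=
    Finset.sum_congr rfl fun l _ => mul_comm _ _
  rw [h1, h2]
  linear_combination hj

/-- `J = -K - ∂g`, at the level of matrices: for all `y z i j`,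
`1/2 (R_{yz}[i,j] + R_{yi}[z,j]) = - K_{yz}[i,j] - (∂g)_{yz}[i,j]`.
Proof: by definition `R_{yz} = - K_{yz} - [D_y, D_z^*] - ∑_m D y z m D_m^*`, so the claim is
`1/2 (R_{yi}[z,j] - R_{yz}[i,j]) = 1/2 (∂U)_{yz}[i,j]` with
`U_z[i,j] = star (D z j i - D i j z - B z i j)` and `(∂U)_{yz} = [D_y, U_z] + ∑_m D y z m U_m`;
take `star` of everything: `R_{yi}[z,j] = star (R_{iy}[j,z])`, `R_{yz}[i,j] = star (R_{zy}[j,i])`
(`R_adj`), and this is `bianchi`. -/
theorem Data.J_matrix (d : Data n) (y z : Fin n) :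
    (1 / 2 : ℂ) • (d.R y z + Matrix.of fun i j => d.R y i z j) =
      -(∑ k, star (d.D z y k) • d.D k)
        - (d.D y * d.G z - d.G z * d.D y + ∑ m, d.D y z m • d.G m) := by
  have hG : ∀ a i j : Fin n, d.G a i j =
      star (d.D a j i) - 1 / 2 * star (d.D a j i - d.D i j a - d.B a i j) := by
    intro a i j
    rfl
  ext i j
  have e1 : star (d.R i y j z) = d.R y i z j := by
    rw [← d.R_adj i y, conjTranspose_apply]
  have e2 : star (d.R z y j i) = d.R y z i j := by
    rw [← d.R_adj z y, conjTranspose_apply]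
  have hb := congrArg star (d.bianchi i y z j)
  rw [star_sub, e1, e2] at hb
  have hL : ((1 / 2 : ℂ) • (d.R y z + Matrix.of fun i j => d.R y i z j)) i j =
      1 / 2 * (d.R y z i j + d.R y i z j) := rfl
  have hR : (-(∑ k, star (d.D z y k) • d.D k)
        - (d.D y * d.G z - d.G z * d.D y + ∑ m, d.D y z m • d.G m)) i j =
      -(∑ k, star (d.D z y k) * d.D k i j)
        - (∑ l, d.D y i l * d.G z l j - ∑ l, d.G z i l * d.D y l j
          + ∑ m, d.D y z m * d.G m i j) := by
    rw [Matrix.sub_apply, Matrix.neg_apply, Matrix.add_apply, Matrix.sub_apply, Matrix.mul_apply,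
      Matrix.mul_apply, Matrix.sum_apply, Matrix.sum_apply]
    simp only [Matrix.smul_apply, smul_eq_mul]
  rw [hL, hR]
  have hE := Z7b_R d y z i j
  have g1 : ∑ l, d.D y i l * d.G z l j = ∑ l, d.D y i l * star (d.D z j l)
      - 1 / 2 * ∑ l, d.D y i l * star (d.D z j l - d.D l j z - d.B z l j) := by
    rw [Finset.mul_sum, ← Finset.sum_sub_distrib]
    refine Finset.sum_congr rfl fun l _ => ?_
    rw [hG]
    ring
  have g2 : ∑ l, d.G z i l * d.D y l j = ∑ l, star (d.D z l i) * d.D y l j
      - 1 / 2 * ∑ l, d.D y l j * star (d.D z l i - d.D i l z - d.B z i l) := by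
    rw [Finset.mul_sum, ← Finset.sum_sub_distrib]
    refine Finset.sum_congr rfl fun l _ => ?_
    rw [hG]
    ring
  have g3 : ∑ m, d.D y z m * d.G m i j = ∑ m, d.D y z m * star (d.D m j i)
      - 1 / 2 * ∑ m, d.D y z m * star (d.D m j i - d.D i j m - d.B m i j) := by
    rw [Finset.mul_sum, ← Finset.sum_sub_distrib]
    refine Finset.sum_congr rfl fun l _ => ?_
    rw [hG]
    ring
  have hs : star (∑ l, star (d.D y l j) * (d.D i l z - d.D z l i - d.B i z l)
      - ∑ l, star (d.D y i l) * (d.D l j z - d.D z j l - d.B l z j)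
      - ∑ l, star (d.D y z l) * (d.D i j l - d.D l j i - d.B i l j)) =
      -∑ l, d.D y l j * star (d.D z l i - d.D i l z - d.B z i l)
        + ∑ l, d.D y i l * star (d.D z j l - d.D l j z - d.B z l j)
        + ∑ m, d.D y z m * star (d.D m j i - d.D i j m - d.B m i j) := by
    rw [star_sub, star_sub, star_sum, star_sum, star_sum, ← Finset.sum_neg_distrib,
      sub_eq_add_neg, sub_eq_add_neg, ← Finset.sum_neg_distrib, ← Finset.sum_neg_distrib]
    congr 1
    · congr 1
      · refine Finset.sum_congr rfl fun l _ => ?_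
        rw [star_mul', star_star, d.anti i z l]
        simp only [star_sub, star_neg]
        ring
      · refine Finset.sum_congr rfl fun l _ => ?_
        rw [star_mul', star_star, d.anti l z j]
        simp only [star_sub, star_neg]
        ring
    · refine Finset.sum_congr rfl fun l _ => ?_
      rw [star_mul', star_star, d.anti i l j]
      simp only [star_sub, star_neg]
      ring
  rw [hs] at hb
  rw [g1, g2, g3]
  linear_combination hE + 1 / 2 * hb

end Pool.Agent.Lib.ThZ
end

section

/-! # The identity `J = -K - ∂g` -/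

open MvPolynomial Matrix Finset

namespace Pool.Agent.Lib.ThZ

variable {n : ℕ}

theorem Data.J_eq (d : Data n) : d.J = -d.K - d.dd d.gg := by
  ext1 y z
  rw [Matrix.sub_apply, Matrix.neg_apply, d.J_form, d.K_form, d.dd_form, d.J_matrix, form_sub]
  congr 1
  rw [← neg_one_smul ℂ (∑ k, star (d.D z y k) • d.D k), form_smul, map_neg, map_one, neg_mul,
    one_mul]

end Pool.Agent.Lib.ThZ
end

section

/-! # The cocycle `K` -/

open MvPolynomial Matrix Finset

namespace Pool.Agent.Lib.ThZ

variable {n : ℕ}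

/-- `K` is a cocycle: `ŷ κ_u = κ([y,u])` (`hat_form` and `d.rep`), the rest is `d.jac`
multiplied by `form (D k)` and summed over `k`. -/
theorem Data.cocycle_K (d : Data n) : d.Cocycle d.K := by
  intro y y' z
  have hC : ∀ (M : Matrix (Fin n) (Fin n) ℂ) (a : ℂ), hat M (C a : P n) = 0 := by
    intro M a
    rw [show (C a : P n) = algebraMap ℂ (P n) a from rfl]
    exact Derivation.map_algebraMap _ a
  have hswap : ∀ (a : Fin n → ℂ) (b : Fin n → Fin n → ℂ),
      (∑ k, C (a k) * ∑ l, C (b k l) * form (d.D l) : P n) =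
        ∑ l, C (∑ k, a k * b k l) * form (d.D l) := by
    intro a b
    simp_rw [Finset.mul_sum]
    rw [Finset.sum_comm]
    refine Finset.sum_congr rfl fun l _ => ?_
    rw [map_sum, Finset.sum_mul]
    refine Finset.sum_congr rfl fun k _ => ?_
    rw [C_mul]
    ring
  have h1 : ∀ w w' : Fin n, hat (d.D w) (d.K w' z) =
      ∑ l, C (∑ k, star (d.D z w' k) * d.B w k l) * form (d.D l) := by
    intro w w'
    rw [← hswap (fun k => star (d.D z w' k)) (fun k l => d.B w k l)]
    change hat (d.D w) (∑ k, C (star (d.D z w' k)) * form (d.D k)) = _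
    rw [map_sum]
    refine Finset.sum_congr rfl fun k _ => ?_
    rw [Derivation.leibniz, hC, smul_zero, add_zero, smul_eq_mul, hat_form, d.rep, form_sum]
  have h2 : ∀ w w' : Fin n, ∑ m, C (d.D w z m) * d.K w' m =
      ∑ l, C (∑ m, d.D w z m * star (d.D m w' l)) * form (d.D l) := by
    intro w w'
    exact hswap (fun m => d.D w z m) (fun m l => star (d.D m w' l))
  have h3 : ∑ k, C (d.B y y' k) * d.K k z =
      ∑ l, C (∑ k, d.B y y' k * star (d.D z k l)) * form (d.D l) :=
    hswap (fun k => d.B y y' k) (fun k l => star (d.D z k l))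
  rw [h1, h1, h2, h2, h3, ← Finset.sum_sub_distrib, ← Finset.sum_add_distrib,
    ← Finset.sum_sub_distrib]
  refine Finset.sum_congr rfl fun l _ => ?_
  rw [← sub_mul, ← add_mul, ← sub_mul, ← C_sub, ← C_add, ← C_sub]
  congr 2
  have h4 := d.jac y y' z l
  have h5 : ∑ k, d.B y y' k * star (d.D z k l) = ∑ k, star (d.D z k l) * d.B y y' k :=
    Finset.sum_congr rfl fun k _ => mul_comm _ _
  have h6 : ∑ k, star (d.D z y k) * d.B k y' l = -∑ k, star (d.D z y k) * d.B y' k l := by
    rw [← Finset.sum_neg_distrib]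
    refine Finset.sum_congr rfl fun k _ => ?_
    rw [d.anti k y' l]
    ring
  rw [h5, h4, h6]
  ring

end Pool.Agent.Lib.ThZ
end
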