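import Pool.Agent.Lib.ThZ.Z13
import Pool.Agent.Lib.ThZ.Mg.G006

section

/-! # From a real Hermitian Lie algebra to the data in a unitary frame -/

open Module Finset Matrix
open scoped InnerProductSpace

namespace Pool.Agent.Lib.ThZ

open Pool.Agent.Lib.MP_a150d7_gt

variable {E : Type*} [NormedAddCommGroup E] [InnerProductSpace ℝ E] [FiniteDimensional ℝ E]

namespace Frame

variable {J : E →ₗ[ℝ] E} {n : ℕ} (f : Frame J n)

private theorem Z13c_co_sum {ι : Type} (s : Finset ι) (g : ι → E) (k : Fin n) :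
    f.co k (∑ j ∈ s, g j) = ∑ j ∈ s, f.co k (g j) :=
  map_sum (AddMonoidHom.mk' (f.co k) (f.co_add k)) _ _

/-- the real orthonormal basis of the frame -/
private theorem Z13c_basis (hiso : ∀ x y, ⟪J x, J y⟫_ℝ = ⟪x, y⟫_ℝ) :
    ∃ b : OrthonormalBasis (Fin n ⊕ Fin n) ℝ E, (∀ k, b (Sum.inl k) = f.e k) ∧
      ∀ k, b (Sum.inr k) = J (f.e k) := by
  have h1 : Orthonormal ℝ (Sum.elim f.e (fun k => J (f.e k))) := by
    rw [orthonormal_iff_ite]
    rintro (i | i) (j | j)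
    · simp only [Sum.elim_inl, f.orth, Sum.inl.injEq]
    · simp only [Sum.elim_inl, Sum.elim_inr, f.orthJ]
      rw [if_neg (by simp)]
    · simp only [Sum.elim_inl, Sum.elim_inr]
      rw [real_inner_comm, f.orthJ, if_neg (by simp)]
    · simp only [Sum.elim_inr, hiso, f.orth, Sum.inr.injEq]
  have h2 : ⊤ ≤ Submodule.span ℝ (Set.range (Sum.elim f.e (fun k => J (f.e k)))) := by
    intro x _
    rw [f.span x]
    refine Submodule.sum_mem _ fun k _ => Submodule.add_mem _ (Submodule.smul_mem _ _ ?_)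
      (Submodule.smul_mem _ _ ?_)
    · exact Submodule.subset_span ⟨Sum.inl k, rfl⟩
    · exact Submodule.subset_span ⟨Sum.inr k, rfl⟩
  refine ⟨OrthonormalBasis.mk h1 h2, fun k => ?_, fun k => ?_⟩
  · rw [OrthonormalBasis.coe_mk]
    rfl
  · rw [OrthonormalBasis.coe_mk]
    rfl

/-- Parseval -/
theorem inner_eq (x y : E) : ⟪x, y⟫_ℝ = (∑ k, f.co k x * star (f.co k y)).re := by
  conv_lhs => rw [f.span x]
  rw [sum_inner, Complex.re_sum]
  refine Finset.sum_congr rfl fun k _ => ?_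
  rw [inner_add_left, real_inner_smul_left, real_inner_smul_left, real_inner_comm y (f.e k),
    real_inner_comm y (J (f.e k))]
  show _ = ((f.co k x) * (starRingEnd ℂ) (f.co k y)).re
  rw [Complex.mul_re, Complex.conj_re, Complex.conj_im]
  show _ = ⟪x, f.e k⟫_ℝ * ⟪y, f.e k⟫_ℝ - ⟪x, J (f.e k)⟫_ℝ * -⟪y, J (f.e k)⟫_ℝ
  ring

/-- a map that is additive, real homogeneous and commutes with `J` is complex linear
in coordinates -/
theorem co_linear (hJJ : ∀ x, J (J x) = -x) (hiso : ∀ x y, ⟪J x, J y⟫_ℝ = ⟪x, y⟫_ℝ)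
    (T : E →ₗ[ℝ] E) (hT : ∀ x, T (J x) = J (T x)) (k : Fin n) (x : E) :
    f.co k (T x) = ∑ l, f.co l x * f.co k (T (f.e l)) := by
  conv_lhs => rw [f.span x]
  rw [map_sum, f.Z13c_co_sum]
  refine Finset.sum_congr rfl fun l _ => ?_
  rw [map_add, map_smul, map_smul, hT, f.co_add, f.co_smul, f.co_smul, f.co_J hJJ hiso]
  have h1 : f.co l x = (⟪x, f.e l⟫_ℝ : ℂ) + (⟪x, J (f.e l)⟫_ℝ : ℂ) * Complex.I :=
    (Complex.re_add_im (f.co l x)).symm
  rw [h1]
  ring

/-- a map that is additive, real homogeneous and anticommutes with `J` is conjugate linear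
in coordinates -/
theorem co_conj_linear (hJJ : ∀ x, J (J x) = -x) (hiso : ∀ x y, ⟪J x, J y⟫_ℝ = ⟪x, y⟫_ℝ)
    (T : E →ₗ[ℝ] E) (hT : ∀ x, T (J x) = -J (T x)) (k : Fin n) (x : E) :
    f.co k (T x) = ∑ l, star (f.co l x) * f.co k (T (f.e l)) := by
  conv_lhs => rw [f.span x]
  rw [map_sum, f.Z13c_co_sum]
  refine Finset.sum_congr rfl fun l _ => ?_
  rw [map_add, map_smul, map_smul, hT, smul_neg, f.co_add, f.co_neg, f.co_smul, f.co_smul,
    f.co_J hJJ hiso]
  have h1 : star (f.co l x) = (⟪x, f.e l⟫_ℝ : ℂ) - (⟪x, J (f.e l)⟫_ℝ : ℂ) * Complex.I := by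
    apply Complex.ext
    · simp [Frame.co]
    · simp [Frame.co]
  rw [h1]
  ring

/-- the real trace of a complex linear map -/
theorem trace_linear (hJJ : ∀ x, J (J x) = -x) (hiso : ∀ x y, ⟪J x, J y⟫_ℝ = ⟪x, y⟫_ℝ)
    (T : E →ₗ[ℝ] E) (hT : ∀ x, T (J x) = J (T x)) :
    LinearMap.trace ℝ E T = 2 * (∑ k, f.co k (T (f.e k))).re := by
  obtain ⟨b, hb1, hb2⟩ := f.Z13c_basis hiso
  rw [LinearMap.trace_eq_sum_inner T b, Fintype.sum_sum_type, Complex.re_sum, two_mul]
  congr 1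
  · refine Finset.sum_congr rfl fun k _ => ?_
    rw [hb1, real_inner_comm]
    rfl
  · refine Finset.sum_congr rfl fun k _ => ?_
    rw [hb2, hT, hiso, real_inner_comm]
    rfl

/-- the real trace of a conjugate linear map -/
theorem trace_conj_linear (hJJ : ∀ x, J (J x) = -x) (hiso : ∀ x y, ⟪J x, J y⟫_ℝ = ⟪x, y⟫_ℝ)
    (T : E →ₗ[ℝ] E) (hT : ∀ x, T (J x) = -J (T x)) : LinearMap.trace ℝ E T = 0 := by
  have h1 : J * (T * J) = T := by
    ext x
    show J (T (J x)) = T x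
    rw [hT, map_neg, hJJ, neg_neg]
  have h2 : T * J * J = -T := by
    ext x
    show T (J (J x)) = -T x
    rw [hJJ, map_neg]
  have h3 : LinearMap.trace ℝ E (J * (T * J)) = LinearMap.trace ℝ E (T * J * J) :=
    LinearMap.trace_mul_comm ℝ J (T * J)
  rw [h1, h2, map_neg] at h3
  linarith

end Frame

end Pool.Agent.Lib.ThZ
end

section

/-! # The data of a real Hermitian Lie algebra -/

open Module Finset Matrix
open scoped InnerProductSpace

namespace Pool.Agent.Lib.ThZ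

open Pool.Agent.Lib.MP_a150d7_gt

variable {E : Type*} [NormedAddCommGroup E] [InnerProductSpace ℝ E] [FiniteDimensional ℝ E]
variable {br : E →ₗ[ℝ] E →ₗ[ℝ] E} {J : E →ₗ[ℝ] E} {n : ℕ}

/-- matrix of `D_y = - A_y^t` -/
noncomputable def fD (br : E →ₗ[ℝ] E →ₗ[ℝ] E) (f : Frame J n) (y : Fin n) :
    Matrix (Fin n) (Fin n) ℂ :=
  fun k m => f.co k (-At (Ac br J) (f.e y) (f.e m))

/-- structure constants -/
noncomputable def fB (br : E →ₗ[ℝ] E →ₗ[ℝ] E) (f : Frame J n) (x y k : Fin n) : ℂ :=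
  f.co k (Bc br J (f.e x) (f.e y))

/-- `star (D z y k) = co_k (- A e_z e_y)` -/
theorem star_fD (h : HermLie br J) (f : Frame J n) (z y k : Fin n) :
    star (fD br f z y k) = f.co k (-Ac br J (f.e z) (f.e y)) := by
  have h1 : ⟪At (Ac br J) (f.e z) (f.e k), f.e y⟫_ℝ = ⟪Ac br J (f.e z) (f.e y), f.e k⟫_ℝ := by
    rw [inner_At, real_inner_comm]
  have h2 : ⟪At (Ac br J) (f.e z) (f.e k), J (f.e y)⟫_ℝ =
      -⟪Ac br J (f.e z) (f.e y), J (f.e k)⟫_ℝ := by
    rw [inner_At, h.chern.A2, real_inner_comm, h.innerJ]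
  unfold fD Frame.co
  apply Complex.ext
  · change ⟪-At (Ac br J) (f.e z) (f.e k), f.e y⟫_ℝ = ⟪-Ac br J (f.e z) (f.e y), f.e k⟫_ℝ
    rw [inner_neg_left, inner_neg_left, h1]
  · change -⟪-At (Ac br J) (f.e z) (f.e k), J (f.e y)⟫_ℝ =
      ⟪-Ac br J (f.e z) (f.e y), J (f.e k)⟫_ℝ
    rw [inner_neg_left, inner_neg_left, h2]
    ring

/-- `rep` (the adjoint of `HermLie.A_rep`) -/
theorem fD_rep (h : HermLie br J) (f : Frame J n) (x y : Fin n) :
    fD br f x * fD br f y - fD br f y * fD br f x = ∑ k, fB br f x y k • fD br f k := by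
  have hprod : ∀ (u v k m : Fin n), star ((fD br f u * fD br f v) k m) =
      f.co m (Ac br J (f.e v) (Ac br J (f.e u) (f.e k))) := by
    intro u v k m
    rw [Matrix.mul_apply, star_sum]
    have h1 := f.co_linear h.JJ h.isoJ (Ac br J (f.e v)) (fun w => h.chern.A2 (f.e v) w) m
      (Ac br J (f.e u) (f.e k))
    rw [h1]
    refine Finset.sum_congr rfl fun l _ => ?_
    rw [star_mul', star_fD h, star_fD h, f.co_neg, f.co_neg]
    ring
  ext k m
  apply star_injective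
  rw [Matrix.sub_apply, star_sub, hprod, hprod, Matrix.sum_apply, star_sum]
  have h2 := h.A_rep (f.e y) (f.e x) (f.e k)
  have h3 := f.co_conj_linear h.JJ h.isoJ ((Ac br J).flip (f.e k))
    (fun w => h.chern.A1 w (f.e k)) m (Bc br J (f.e x) (f.e y))
  rw [LinearMap.flip_apply] at h3
  have h4 : f.co m (Ac br J (f.e y) (Ac br J (f.e x) (f.e k))) -
      f.co m (Ac br J (f.e x) (Ac br J (f.e y) (f.e k))) =
      -f.co m (Ac br J (Bc br J (f.e x) (f.e y)) (f.e k)) := by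
    rw [← f.co_sub, h2, h.Bc_anti, map_neg, LinearMap.neg_apply, f.co_neg]
  rw [h4, h3, ← Finset.sum_neg_distrib]
  refine Finset.sum_congr rfl fun l _ => ?_
  rw [Matrix.smul_apply, smul_eq_mul, star_mul', star_fD h, f.co_neg, LinearMap.flip_apply]
  unfold fB
  ring

end Pool.Agent.Lib.ThZ
end
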