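import Pool.Agent.Lib.MP_a150d7_gt.Mg.G001
import Pool.Agent.Lib.ThZ.Mg.G002
import Pool.Agent.Lib.ThZ.Mg.G003
import Pool.Agent.Lib.ThZ.Mg.G004
import Pool.Agent.Lib.ThZ.Mg.G001
import Pool.Agent.Lib.ThZ.Mg.G007
import Pool.Agent.Lib.ThZ.Mg.G006

section

/-! # Part (II): `E det J = 0` -/

open MvPolynomial Matrix Finset

namespace Pool.Agent.Lib.ThZ

variable {n : ℕ}

theorem Data.partII (d : Data n) (hn : 0 < n) (hu : d.Unimodular) : Ev n d.J.det = 0 := by
  have h1 : d.J = -d.K + (-1 : ℂ) • d.dd d.gg := by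
    rw [d.J_eq, neg_one_smul, sub_eq_add_neg]
  rw [h1, const_lemma (Ev n) (-d.K) ((-1 : ℂ) • d.dd d.gg)]
  · rw [Matrix.det_neg, d.det_K hn hu, mul_zero, map_zero]
  · intro s
    have hc : d.Cocycle (-d.K + s • ((-1 : ℂ) • d.dd d.gg)) := by
      refine Data.Cocycle.add ?_ ((d.cocycle_dd _).smul _ |>.smul _)
      have := d.cocycle_K.smul (-1)
      rwa [neg_one_smul] at this
    have h2 := d.E_dd hu _ hc (fun z => (-1 : ℂ) • d.gg z)
    convert h2 using 5
    rename_i y _ z _
    unfold Data.dd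
    rw [Matrix.smul_apply]
    simp only [(hat (d.D y)).map_smul, smul_add, Finset.smul_sum, mul_smul_comm]

end Pool.Agent.Lib.ThZ
end

section

/-! # The core theorem in coordinates -/

open MvPolynomial Matrix Finset

namespace Pool.Agent.Lib.ThZ

variable {n : ℕ}

theorem Data.core (d : Data n) (hn : 0 < n) (hu : d.Unimodular) (c : ℂ)
    (h : ∀ x : Fin n → ℂ, ∑ a, ∑ b, ∑ i, ∑ j,
      x a * star (x b) * star (x i) * x j * d.R a b i j = c * (∑ k, x k * star (x k)) ^ 2) :
    c = 0 := by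
  by_contra hc
  have h1 := partI c hc hn d.F (d.hsc_poly c h)
  have h2 : (jacF d.F).det = d.J.det := rfl
  rw [h2, d.partII hn hu, mul_zero] at h1
  have h3 : 2 * c ^ n * Ev n (rr n ^ n) ≠ 0 :=
    mul_ne_zero (mul_ne_zero two_ne_zero (pow_ne_zero _ hc)) (Ev_rr_pow_ne hn n)
  exact h3 h1.symm

end Pool.Agent.Lib.ThZ
end

section

/-! # The data of a real Hermitian Lie algebra -/

open Module Finset Matrix
open scoped InnerProductSpace

namespace Pool.Agent.Lib.ThZ

open Pool.Agent.Lib.MP_a150d7_gt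

variable {E : Type*} [NormedAddCommGroup E] [InnerProductSpace ℝ E] [FiniteDimensional ℝ E]
variable {br : E →ₗ[ℝ] E →ₗ[ℝ] E} {J : E →ₗ[ℝ] E} {n : ℕ}

/-- `jac` (`HermLie.A_jac` in coordinates) -/
theorem fD_jac (h : HermLie br J) (f : Frame J n) (x y z k : Fin n) :
    ∑ l, star (fD br f z l k) * fB br f x y l =
    ∑ l, star (fD br f z x l) * fB br f l y k + ∑ l, star (fD br f z y l) * fB br f x l k
      + ∑ l, fD br f x z l * star (fD br f l y k) - ∑ l, fD br f y z l * star (fD br f l x k) := by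
  have hA : ∀ a b c : Fin n, f.co c (Ac br J (f.e a) (f.e b)) = -star (fD br f a b c) := by
    intro a b c
    rw [star_fD h f a b c, f.co_neg, neg_neg]
  have hA' : ∀ a b c : Fin n, star (f.co c (Ac br J (f.e a) (f.e b))) = -fD br f a b c := by
    intro a b c
    rw [hA, star_neg, star_star]
  have h0 : f.co k (Ac br J (f.e z) (Bc br J (f.e x) (f.e y))) =
      -∑ l, star (fD br f z l k) * fB br f x y l := by
    rw [f.co_linear h.JJ h.isoJ (Ac br J (f.e z)) (fun v => h.chern.A2 _ v), ← Finset.sum_neg_distrib]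
    refine Finset.sum_congr rfl fun l _ => ?_
    rw [hA]
    unfold fB
    ring
  have h1 : f.co k (Bc br J (Ac br J (f.e z) (f.e x)) (f.e y)) =
      -∑ l, star (fD br f z x l) * fB br f l y k := by
    have := f.co_linear h.JJ h.isoJ ((Bc br J).flip (f.e y)) (fun v => h.Bc_J1 v _) k
      (Ac br J (f.e z) (f.e x))
    rw [LinearMap.flip_apply] at this
    rw [this, ← Finset.sum_neg_distrib]
    refine Finset.sum_congr rfl fun l _ => ?_
    rw [hA, LinearMap.flip_apply]
    unfold fB
    ring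
  have h2 : f.co k (Bc br J (f.e x) (Ac br J (f.e z) (f.e y))) =
      -∑ l, star (fD br f z y l) * fB br f x l k := by
    rw [f.co_linear h.JJ h.isoJ (Bc br J (f.e x)) (fun v => h.Bc_J2 _ v), ← Finset.sum_neg_distrib]
    refine Finset.sum_congr rfl fun l _ => ?_
    rw [hA]
    unfold fB
    ring
  have h3 : ∀ x y : Fin n, f.co k (Ac br J (Ac br J (f.e x) (f.e z)) (f.e y)) =
      ∑ l, fD br f x z l * star (fD br f l y k) := by
    intro x y
    have := f.co_conj_linear h.JJ h.isoJ ((Ac br J).flip (f.e y)) (fun v => h.chern.A1 v _) k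
      (Ac br J (f.e x) (f.e z))
    rw [LinearMap.flip_apply] at this
    rw [this]
    refine Finset.sum_congr rfl fun l _ => ?_
    rw [hA', LinearMap.flip_apply, hA]
    ring
  have key := congrArg (f.co k) (h.A_jac (f.e x) (f.e y) (f.e z))
  rw [f.co_add, f.co_sub, f.co_add, h0, h1, h2, h3, h3] at key
  linear_combination -key

end Pool.Agent.Lib.ThZ
end

section

/-! # The data of a real Hermitian Lie algebra -/

open Module Finset Matrix
open scoped InnerProductSpace

namespace Pool.Agent.Lib.ThZ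

open Pool.Agent.Lib.MP_a150d7_gt

variable {E : Type*} [NormedAddCommGroup E] [InnerProductSpace ℝ E] [FiniteDimensional ℝ E]
variable {br : E →ₗ[ℝ] E →ₗ[ℝ] E} {J : E →ₗ[ℝ] E} {n : ℕ}

/-- the data in a unitary frame -/
noncomputable def mkData (h : HermLie br J) (f : Frame J n) : Data n where
  D := fD br f
  B := fB br f
  anti := fun x y k => by unfold fB; rw [h.Bc_anti, f.co_neg]
  rep := fD_rep h f
  jac := fD_jac h f

/-- unimodularity: `tr_ℝ (br y) = 2 Re (tr B(y,·) + tr A_y)` for all `y`, in particular for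
`y = e_k` and `y = J e_k`. -/
theorem mkData_unimodular (h : HermLie br J) (f : Frame J n)
    (huni : ∀ x, LinearMap.trace ℝ E (br x) = 0) : (mkData h f).Unimodular := by
  have htr : ∀ x : E, (∑ k, f.co k (Bc br J x (f.e k))).re +
      (∑ k, f.co k (Ac br J x (f.e k))).re = 0 := by
    intro x
    have h1 : br x = Bc br J x + Ac br J x - (Ac br J).flip x := by
      ext y
      rw [h.br_eq x y]
      rfl
    have h2 := huni x
    rw [h1, map_sub, map_add, f.trace_linear h.JJ h.isoJ (Bc br J x) (fun w => h.Bc_J2 x w),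
      f.trace_linear h.JJ h.isoJ (Ac br J x) (fun w => h.chern.A2 x w),
      Frame.trace_conj_linear h.JJ h.isoJ ((Ac br J).flip x) (fun w => h.chern.A1 w x)] at h2
    linarith
  intro y
  have h1 := htr (f.e y)
  have h2 := htr (J (f.e y))
  have e1 : ∑ k, f.co k (Bc br J (J (f.e y)) (f.e k)) =
      Complex.I * ∑ k, f.co k (Bc br J (f.e y) (f.e k)) := by
    rw [Finset.mul_sum]
    exact Finset.sum_congr rfl fun k _ => by rw [h.Bc_J1, f.co_J h.JJ h.isoJ]
  have e2 : ∑ k, f.co k (Ac br J (J (f.e y)) (f.e k)) =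
      -(Complex.I * ∑ k, f.co k (Ac br J (f.e y) (f.e k))) := by
    rw [Finset.mul_sum, ← Finset.sum_neg_distrib]
    exact Finset.sum_congr rfl fun k _ => by rw [h.chern.A1, f.co_neg, f.co_J h.JJ h.isoJ]
  rw [e1, e2] at h2
  have e3 : ((mkData h f).D y).trace = star (-∑ k, f.co k (Ac br J (f.e y) (f.e k))) := by
    rw [Matrix.trace, ← Finset.sum_neg_distrib, star_sum]
    refine Finset.sum_congr rfl fun k _ => ?_
    rw [← f.co_neg, ← star_fD h f y k k, star_star]
    rfl
  have e4 : ∑ k, (mkData h f).B y k k = ∑ k, f.co k (Bc br J (f.e y) (f.e k)) := rfl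
  rw [e3, e4]
  generalize ∑ k, f.co k (Ac br J (f.e y) (f.e k)) = a at *
  generalize ∑ k, f.co k (Bc br J (f.e y) (f.e k)) = b at *
  have h3 : a.im = b.im := by
    simp only [Complex.neg_re, Complex.mul_re, Complex.I_re, Complex.I_im] at h2
    linarith
  apply Complex.ext
  · change (-a).re = b.re
    rw [Complex.neg_re]
    linarith
  · change -(-a).im = b.im
    rw [Complex.neg_im, neg_neg, h3]

end Pool.Agent.Lib.ThZ
end
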